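import Pool.Agent.H.MP_800496_gt.Defs

set_option autoImplicit false

/-!
# Explicit isotopies and skein relations for the third relation

The isotopies below were found by a computer search; every line is one local move (or the removal of a
positive curl, which is allowed because `a = 1` here).
-/

namespace Pool.Agent.H.MP_800496_gt

open Polynomial Piece

/-! ### The computation, for `a = b₀ = b₃ = 1`, `b₁ = b₂ = x`, `b_∞ = y` -/

section Computation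

variable {R : Type*} [CommRing R] (x y : R)

/-- The class of a word in the skein module (zero if the word is not a link diagram). -/
noncomputable def val (w : Word) : SkeinModule (1 : R) 1 x x 1 y :=
  open Classical in
  if h : run w 0 = some 0 then
    (relSubmodule (1 : R) 1 x x 1 y).mkQ (Finsupp.single (FramedLink.mk ⟨w, h⟩) 1)
  else 0

theorem val_of {w : Word} (h : run w 0 = some 0) :
    val x y w = (relSubmodule (1 : R) 1 x x 1 y).mkQ (Finsupp.single (FramedLink.mk ⟨w, h⟩) 1) := by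
  rw [val, dif_pos h]

variable {x y}

theorem val_step (u v : Word) {l r : Word} (m : Move l r) (h₁ : run (u ++ l ++ v) 0 = some 0)
    (h₂ : run (u ++ r ++ v) 0 = some 0) : val x y (u ++ l ++ v) = val x y (u ++ r ++ v) := by
  rw [val_of x y h₁, val_of x y h₂]
  have : FramedLink.mk ⟨u ++ l ++ v, h₁⟩ = FramedLink.mk ⟨u ++ r ++ v, h₂⟩ :=
    Quot.sound ⟨u, v, l, r, m, rfl, rfl⟩
  rw [this]

theorem val_r1 (u v : Word) (i : ℕ)
    (h₁ : run (u ++ [(cup, i + 1), (pos, i), (cap, i + 1)] ++ v) 0 = some 0)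
    (h₂ : run (u ++ v) 0 = some 0) :
    val x y (u ++ [(cup, i + 1), (pos, i), (cap, i + 1)] ++ v) = val x y (u ++ v) := by
  rw [val_of x y h₁, val_of x y h₂, ← sub_eq_zero, ← map_sub, Submodule.mkQ_apply,
    Submodule.Quotient.mk_eq_zero]
  exact Submodule.subset_span (Or.inr ⟨u, v, i, ⟨_, h₂⟩, ⟨_, h₁⟩, rfl, rfl, rfl⟩)

theorem val_skein (u v : Word) (i : ℕ)
    (h₀ : run (u ++ v) 0 = some 0)
    (h₁ : run (u ++ [(pos, i)] ++ v) 0 = some 0)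
    (h₂ : run (u ++ [(pos, i), (pos, i)] ++ v) 0 = some 0)
    (h₃ : run (u ++ [(pos, i), (pos, i), (pos, i)] ++ v) 0 = some 0)
    (h₄ : run (u ++ [(cap, i), (cup, i)] ++ v) 0 = some 0) :
    val x y (u ++ v) + x • val x y (u ++ [(pos, i)] ++ v)
      + x • val x y (u ++ [(pos, i), (pos, i)] ++ v)
      + val x y (u ++ [(pos, i), (pos, i), (pos, i)] ++ v)
      + y • val x y (u ++ [(cap, i), (cup, i)] ++ v) = 0 := by
  rw [val_of x y h₀, val_of x y h₁, val_of x y h₂, val_of x y h₃, val_of x y h₄, ← map_smul,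
    ← map_smul, ← map_smul, ← map_add, ← map_add, ← map_add, ← map_add, Submodule.mkQ_apply,
    Submodule.Quotient.mk_eq_zero]
  refine Submodule.subset_span (Or.inl ⟨u, v, i, ⟨_, h₀⟩, ⟨_, h₁⟩, ⟨_, h₂⟩, ⟨_, h₃⟩, ⟨_, h₄⟩,
    rfl, rfl, rfl, rfl, rfl, ?_⟩)
  simp only [Finsupp.smul_single, smul_eq_mul, mul_one]

theorem eq_F0 :
    val x y [(cup, 0), (cup, 1), (cup, 1), (cup, 0), (pos, 1), (pos, 1), (cap, 2), (pos, 0), (neg, 2), (cap, 1), (neg, 0), (cap, 1), (cap, 0)] =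
      val x y [(cup, 0), (cap, 0), (cup, 0), (cap, 0)] :=
  calc
    val x y [(cup, 0), (cup, 1), (cup, 1), (cup, 0), (pos, 1), (pos, 1), (cap, 2), (pos, 0), (neg, 2), (cap, 1), (neg, 0), (cap, 1), (cap, 0)]
      = val x y [(cup, 0), (cup, 1), (cup, 1), (cup, 0), (pos, 1), (neg, 2), (cap, 1), (pos, 0), (neg, 2), (cap, 1), (neg, 0), (cap, 1), (cap, 0)] := (val_step [(cup, 0), (cup, 1), (cup, 1), (cup, 0), (pos, 1)] [(pos, 0), (neg, 2), (cap, 1), (neg, 0), (cap, 1), (cap, 0)] (.slideCapNeg 1) rfl rfl).symm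
    _ = val x y [(cup, 0), (cup, 1), (cup, 1), (cup, 1), (neg, 0), (neg, 2), (cap, 1), (pos, 0), (neg, 2), (cap, 1), (neg, 0), (cap, 1), (cap, 0)] := (val_step [(cup, 0), (cup, 1), (cup, 1)] [(neg, 2), (cap, 1), (pos, 0), (neg, 2), (cap, 1), (neg, 0), (cap, 1), (cap, 0)] (.slideCupPos 0) rfl rfl)
    _ = val x y [(cup, 0), (cup, 1), (cup, 1), (cup, 3), (neg, 0), (neg, 2), (cap, 1), (pos, 0), (neg, 2), (cap, 1), (neg, 0), (cap, 1), (cap, 0)] := (val_step [(cup, 0), (cup, 1)] [(neg, 0), (neg, 2), (cap, 1), (pos, 0), (neg, 2), (cap, 1), (neg, 0), (cap, 1), (cap, 0)] (.exchange cup cup 1 1 (by norm_num)) rfl rfl).symm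
    _ = val x y [(cup, 0), (cup, 1), (cup, 1), (neg, 0), (cup, 3), (neg, 2), (cap, 1), (pos, 0), (neg, 2), (cap, 1), (neg, 0), (cap, 1), (cap, 0)] := (val_step [(cup, 0), (cup, 1), (cup, 1)] [(neg, 2), (cap, 1), (pos, 0), (neg, 2), (cap, 1), (neg, 0), (cap, 1), (cap, 0)] (.exchange neg cup 0 1 (by norm_num)) rfl rfl).symm
    _ = val x y [(cup, 0), (cup, 1), (cup, 1), (neg, 0), (cup, 3), (pos, 1), (cap, 2), (pos, 0), (neg, 2), (cap, 1), (neg, 0), (cap, 1), (cap, 0)] := (val_step [(cup, 0), (cup, 1), (cup, 1), (neg, 0), (cup, 3)] [(pos, 0), (neg, 2), (cap, 1), (neg, 0), (cap, 1), (cap, 0)] (.slideCapNeg 1) rfl rfl)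
    _ = val x y [(cup, 0), (cup, 1), (cup, 1), (neg, 0), (pos, 1), (cup, 3), (cap, 2), (pos, 0), (neg, 2), (cap, 1), (neg, 0), (cap, 1), (cap, 0)] := (val_step [(cup, 0), (cup, 1), (cup, 1), (neg, 0)] [(cap, 2), (pos, 0), (neg, 2), (cap, 1), (neg, 0), (cap, 1), (cap, 0)] (.exchange pos cup 1 1 (by norm_num)) rfl rfl).symm
    _ = val x y [(cup, 0), (cup, 1), (cup, 1), (neg, 0), (pos, 1), (cup, 3), (cap, 2), (pos, 0), (pos, 1), (cap, 2), (neg, 0), (cap, 1), (cap, 0)] := (val_step [(cup, 0), (cup, 1), (cup, 1), (neg, 0), (pos, 1), (cup, 3), (cap, 2), (pos, 0)] [(neg, 0), (cap, 1), (cap, 0)] (.slideCapNeg 1) rfl rfl)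
    _ = val x y [(cup, 0), (cup, 1), (cup, 1), (neg, 0), (pos, 1), (pos, 0), (pos, 1), (cap, 2), (neg, 0), (cap, 1), (cap, 0)] := (val_step [(cup, 0), (cup, 1), (cup, 1), (neg, 0), (pos, 1)] [(pos, 0), (pos, 1), (cap, 2), (neg, 0), (cap, 1), (cap, 0)] (.zigzagLeft 2) rfl rfl)
    _ = val x y [(cup, 0), (cup, 1), (cup, 1), (neg, 0), (pos, 0), (pos, 1), (pos, 0), (cap, 2), (neg, 0), (cap, 1), (cap, 0)] := (val_step [(cup, 0), (cup, 1), (cup, 1), (neg, 0)] [(cap, 2), (neg, 0), (cap, 1), (cap, 0)] (.triangle 0) rfl rfl).symm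
    _ = val x y [(cup, 0), (cup, 1), (cup, 1), (neg, 0), (pos, 0), (pos, 1), (cap, 2), (pos, 0), (neg, 0), (cap, 1), (cap, 0)] := (val_step [(cup, 0), (cup, 1), (cup, 1), (neg, 0), (pos, 0), (pos, 1)] [(neg, 0), (cap, 1), (cap, 0)] (.exchange pos cap 0 0 (by norm_num)) rfl rfl)
    _ = val x y [(cup, 0), (cup, 1), (cup, 1), (pos, 1), (cap, 2), (pos, 0), (neg, 0), (cap, 1), (cap, 0)] := (val_step [(cup, 0), (cup, 1), (cup, 1)] [(pos, 1), (cap, 2), (pos, 0), (neg, 0), (cap, 1), (cap, 0)] (.negPos 0) rfl rfl)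
    _ = val x y [(cup, 0), (cup, 1), (cup, 1), (cup, 3), (pos, 2), (cap, 3), (pos, 1), (cap, 2), (pos, 0), (neg, 0), (cap, 1), (cap, 0)] := (val_r1 [(cup, 0), (cup, 1), (cup, 1)] [(pos, 1), (cap, 2), (pos, 0), (neg, 0), (cap, 1), (cap, 0)] 2 rfl rfl).symm
    _ = val x y [(cup, 0), (cup, 1), (cup, 1), (cup, 1), (pos, 2), (cap, 3), (pos, 1), (cap, 2), (pos, 0), (neg, 0), (cap, 1), (cap, 0)] := (val_step [(cup, 0), (cup, 1)] [(pos, 2), (cap, 3), (pos, 1), (cap, 2), (pos, 0), (neg, 0), (cap, 1), (cap, 0)] (.exchange cup cup 1 1 (by norm_num)) rfl rfl)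
    _ = val x y [(cup, 0), (cup, 1), (cup, 1), (cup, 1), (pos, 2), (pos, 1), (cap, 3), (cap, 2), (pos, 0), (neg, 0), (cap, 1), (cap, 0)] := (val_step [(cup, 0), (cup, 1), (cup, 1), (cup, 1), (pos, 2)] [(cap, 2), (pos, 0), (neg, 0), (cap, 1), (cap, 0)] (.exchange pos cap 1 1 (by norm_num)) rfl rfl).symm
    _ = val x y [(cup, 0), (cup, 1), (cup, 1), (cup, 2), (neg, 1), (pos, 1), (cap, 3), (cap, 2), (pos, 0), (neg, 0), (cap, 1), (cap, 0)] := (val_step [(cup, 0), (cup, 1), (cup, 1)] [(pos, 1), (cap, 3), (cap, 2), (pos, 0), (neg, 0), (cap, 1), (cap, 0)] (.slideCupPos 1) rfl rfl)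
    _ = val x y [(cup, 0), (cup, 1), (cup, 1), (cup, 2), (cap, 3), (cap, 2), (pos, 0), (neg, 0), (cap, 1), (cap, 0)] := (val_step [(cup, 0), (cup, 1), (cup, 1), (cup, 2)] [(cap, 3), (cap, 2), (pos, 0), (neg, 0), (cap, 1), (cap, 0)] (.negPos 1) rfl rfl)
    _ = val x y [(cup, 0), (cup, 1), (cup, 1), (cap, 2), (pos, 0), (neg, 0), (cap, 1), (cap, 0)] := (val_step [(cup, 0), (cup, 1), (cup, 1)] [(cap, 2), (pos, 0), (neg, 0), (cap, 1), (cap, 0)] (.zigzagRight 2) rfl rfl)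
    _ = val x y [(cup, 0), (cup, 1), (pos, 0), (neg, 0), (cap, 1), (cap, 0)] := (val_step [(cup, 0), (cup, 1)] [(pos, 0), (neg, 0), (cap, 1), (cap, 0)] (.zigzagRight 1) rfl rfl)
    _ = val x y [(cup, 0), (cup, 1), (cap, 1), (cap, 0)] := (val_step [(cup, 0), (cup, 1)] [(cap, 1), (cap, 0)] (.posNeg 0) rfl rfl)
    _ = val x y [(cup, 0), (cup, 1), (pos, 0), (neg, 0), (cap, 1), (cap, 0)] := (val_step [(cup, 0), (cup, 1)] [(cap, 1), (cap, 0)] (.posNeg 0) rfl rfl).symm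
    _ = val x y [(cup, 0), (cup, 0), (neg, 1), (neg, 0), (cap, 1), (cap, 0)] := (val_step [(cup, 0)] [(neg, 0), (cap, 1), (cap, 0)] (.slideCupNeg 0) rfl rfl).symm
    _ = val x y [(cup, 0), (cup, 2), (neg, 1), (neg, 0), (cap, 1), (cap, 0)] := (val_step [] [(neg, 1), (neg, 0), (cap, 1), (cap, 0)] (.exchange cup cup 0 0 (by norm_num)) rfl rfl).symm
    _ = val x y [(cup, 0), (cup, 2), (neg, 1), (pos, 1), (cap, 0), (cap, 0)] := (val_step [(cup, 0), (cup, 2), (neg, 1)] [(cap, 0)] (.slideCapPos 0) rfl rfl).symm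
    _ = val x y [(cup, 0), (cup, 2), (cap, 0), (cap, 0)] := (val_step [(cup, 0), (cup, 2)] [(cap, 0), (cap, 0)] (.negPos 1) rfl rfl)
    _ = val x y [(cup, 0), (cap, 0), (cup, 0), (cap, 0)] := (val_step [(cup, 0)] [(cap, 0)] (.exchange cap cup 0 0 (by norm_num)) rfl rfl).symm

theorem eq_F1 :
    val x y [(cup, 0), (cup, 1), (cup, 1), (cup, 0), (pos, 1), (cap, 2), (pos, 0), (neg, 2), (cap, 1), (neg, 0), (cap, 1), (cap, 0)] =
      val x y [(cup, 0), (cap, 0)] :=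
  calc
    val x y [(cup, 0), (cup, 1), (cup, 1), (cup, 0), (pos, 1), (cap, 2), (pos, 0), (neg, 2), (cap, 1), (neg, 0), (cap, 1), (cap, 0)]
      = val x y [(cup, 0), (cup, 1), (cup, 1), (cup, 1), (neg, 0), (cap, 2), (pos, 0), (neg, 2), (cap, 1), (neg, 0), (cap, 1), (cap, 0)] := (val_step [(cup, 0), (cup, 1), (cup, 1)] [(cap, 2), (pos, 0), (neg, 2), (cap, 1), (neg, 0), (cap, 1), (cap, 0)] (.slideCupPos 0) rfl rfl)
    _ = val x y [(cup, 0), (cup, 1), (cup, 1), (cup, 1), (cap, 2), (neg, 0), (pos, 0), (neg, 2), (cap, 1), (neg, 0), (cap, 1), (cap, 0)] := (val_step [(cup, 0), (cup, 1), (cup, 1), (cup, 1)] [(pos, 0), (neg, 2), (cap, 1), (neg, 0), (cap, 1), (cap, 0)] (.exchange neg cap 0 0 (by norm_num)) rfl rfl)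
    _ = val x y [(cup, 0), (cup, 1), (cup, 1), (neg, 0), (pos, 0), (neg, 2), (cap, 1), (neg, 0), (cap, 1), (cap, 0)] := (val_step [(cup, 0), (cup, 1), (cup, 1)] [(neg, 0), (pos, 0), (neg, 2), (cap, 1), (neg, 0), (cap, 1), (cap, 0)] (.zigzagRight 1) rfl rfl)
    _ = val x y [(cup, 0), (cup, 1), (cup, 1), (neg, 2), (cap, 1), (neg, 0), (cap, 1), (cap, 0)] := (val_step [(cup, 0), (cup, 1), (cup, 1)] [(neg, 2), (cap, 1), (neg, 0), (cap, 1), (cap, 0)] (.negPos 0) rfl rfl)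
    _ = val x y [(cup, 0), (cup, 1), (cup, 2), (pos, 1), (cap, 1), (neg, 0), (cap, 1), (cap, 0)] := (val_step [(cup, 0), (cup, 1)] [(cap, 1), (neg, 0), (cap, 1), (cap, 0)] (.slideCupNeg 1) rfl rfl)
    _ = val x y [(cup, 0), (cup, 1), (cup, 2), (pos, 1), (cup, 3), (pos, 2), (cap, 3), (cap, 1), (neg, 0), (cap, 1), (cap, 0)] := (val_r1 [(cup, 0), (cup, 1), (cup, 2), (pos, 1)] [(cap, 1), (neg, 0), (cap, 1), (cap, 0)] 2 rfl rfl).symm
    _ = val x y [(cup, 0), (cup, 1), (cup, 2), (pos, 1), (cup, 3), (pos, 2), (cap, 1), (cap, 1), (neg, 0), (cap, 1), (cap, 0)] := (val_step [(cup, 0), (cup, 1), (cup, 2), (pos, 1), (cup, 3), (pos, 2)] [(neg, 0), (cap, 1), (cap, 0)] (.exchange cap cap 1 1 (by norm_num)) rfl rfl).symm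
    _ = val x y [(cup, 0), (cup, 1), (cup, 2), (cup, 3), (pos, 1), (pos, 2), (cap, 1), (cap, 1), (neg, 0), (cap, 1), (cap, 0)] := (val_step [(cup, 0), (cup, 1), (cup, 2)] [(pos, 2), (cap, 1), (cap, 1), (neg, 0), (cap, 1), (cap, 0)] (.exchange pos cup 1 1 (by norm_num)) rfl rfl)
    _ = val x y [(cup, 0), (cup, 1), (cup, 2), (cup, 3), (pos, 1), (neg, 1), (cap, 2), (cap, 1), (neg, 0), (cap, 1), (cap, 0)] := (val_step [(cup, 0), (cup, 1), (cup, 2), (cup, 3), (pos, 1)] [(cap, 1), (neg, 0), (cap, 1), (cap, 0)] (.slideCapPos 1) rfl rfl)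
    _ = val x y [(cup, 0), (cup, 1), (cup, 2), (cup, 3), (cap, 2), (cap, 1), (neg, 0), (cap, 1), (cap, 0)] := (val_step [(cup, 0), (cup, 1), (cup, 2), (cup, 3)] [(cap, 2), (cap, 1), (neg, 0), (cap, 1), (cap, 0)] (.posNeg 1) rfl rfl)
    _ = val x y [(cup, 0), (cup, 1), (cup, 2), (cap, 1), (neg, 0), (cap, 1), (cap, 0)] := (val_step [(cup, 0), (cup, 1), (cup, 2)] [(cap, 1), (neg, 0), (cap, 1), (cap, 0)] (.zigzagLeft 2) rfl rfl)
    _ = val x y [(cup, 0), (cup, 1), (neg, 0), (cap, 1), (cap, 0)] := (val_step [(cup, 0), (cup, 1)] [(neg, 0), (cap, 1), (cap, 0)] (.zigzagLeft 1) rfl rfl)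
    _ = val x y [(cup, 0), (cup, 1), (neg, 0), (pos, 0), (neg, 0), (cap, 1), (cap, 0)] := (val_step [(cup, 0), (cup, 1)] [(neg, 0), (cap, 1), (cap, 0)] (.negPos 0) rfl rfl).symm
    _ = val x y [(cup, 0), (cup, 0), (pos, 1), (pos, 0), (neg, 0), (cap, 1), (cap, 0)] := (val_step [(cup, 0)] [(pos, 0), (neg, 0), (cap, 1), (cap, 0)] (.slideCupPos 0) rfl rfl).symm
    _ = val x y [(cup, 0), (cup, 2), (pos, 1), (pos, 0), (neg, 0), (cap, 1), (cap, 0)] := (val_step [] [(pos, 1), (pos, 0), (neg, 0), (cap, 1), (cap, 0)] (.exchange cup cup 0 0 (by norm_num)) rfl rfl).symm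
    _ = val x y [(cup, 0), (cup, 2), (pos, 1), (pos, 0), (pos, 1), (cap, 0), (cap, 0)] := (val_step [(cup, 0), (cup, 2), (pos, 1), (pos, 0)] [(cap, 0)] (.slideCapPos 0) rfl rfl).symm
    _ = val x y [(cup, 0), (cup, 2), (pos, 1), (pos, 0), (pos, 1), (cap, 2), (cap, 0)] := (val_step [(cup, 0), (cup, 2), (pos, 1), (pos, 0), (pos, 1)] [] (.exchange cap cap 0 0 (by norm_num)) rfl rfl)
    _ = val x y [(cup, 0), (cup, 2), (pos, 0), (pos, 1), (pos, 0), (cap, 2), (cap, 0)] := (val_step [(cup, 0), (cup, 2)] [(cap, 2), (cap, 0)] (.triangle 0) rfl rfl).symm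
    _ = val x y [(cup, 0), (pos, 0), (cup, 2), (pos, 1), (pos, 0), (cap, 2), (cap, 0)] := (val_step [(cup, 0)] [(pos, 1), (pos, 0), (cap, 2), (cap, 0)] (.exchange pos cup 0 0 (by norm_num)) rfl rfl).symm
    _ = val x y [(cup, 0), (pos, 0), (cup, 2), (pos, 1), (cap, 2), (pos, 0), (cap, 0)] := (val_step [(cup, 0), (pos, 0), (cup, 2), (pos, 1)] [(cap, 0)] (.exchange pos cap 0 0 (by norm_num)) rfl rfl)
    _ = val x y [(cup, 0), (pos, 0), (pos, 0), (cap, 0)] := (val_r1 [(cup, 0), (pos, 0)] [(pos, 0), (cap, 0)] 1 rfl rfl)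
    _ = val x y [(cup, 0), (cup, 2), (pos, 1), (cap, 2), (pos, 0), (pos, 0), (cap, 0)] := (val_r1 [(cup, 0)] [(pos, 0), (pos, 0), (cap, 0)] 1 rfl rfl).symm
    _ = val x y [(cup, 0), (cup, 0), (pos, 1), (cap, 2), (pos, 0), (pos, 0), (cap, 0)] := (val_step [] [(pos, 1), (cap, 2), (pos, 0), (pos, 0), (cap, 0)] (.exchange cup cup 0 0 (by norm_num)) rfl rfl)
    _ = val x y [(cup, 0), (cup, 0), (pos, 1), (pos, 0), (cap, 2), (pos, 0), (cap, 0)] := (val_step [(cup, 0), (cup, 0), (pos, 1)] [(pos, 0), (cap, 0)] (.exchange pos cap 0 0 (by norm_num)) rfl rfl).symm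
    _ = val x y [(cup, 0), (cup, 1), (neg, 0), (pos, 0), (cap, 2), (pos, 0), (cap, 0)] := (val_step [(cup, 0)] [(pos, 0), (cap, 2), (pos, 0), (cap, 0)] (.slideCupPos 0) rfl rfl)
    _ = val x y [(cup, 0), (cup, 1), (cap, 2), (pos, 0), (cap, 0)] := (val_step [(cup, 0), (cup, 1)] [(cap, 2), (pos, 0), (cap, 0)] (.negPos 0) rfl rfl)
    _ = val x y [(cup, 0), (pos, 0), (cap, 0)] := (val_step [(cup, 0)] [(pos, 0), (cap, 0)] (.zigzagRight 1) rfl rfl)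
    _ = val x y [(cup, 0), (cup, 2), (pos, 1), (cap, 2), (pos, 0), (cap, 0)] := (val_r1 [(cup, 0)] [(pos, 0), (cap, 0)] 1 rfl rfl).symm
    _ = val x y [(cup, 0), (cup, 0), (pos, 1), (cap, 2), (pos, 0), (cap, 0)] := (val_step [] [(pos, 1), (cap, 2), (pos, 0), (cap, 0)] (.exchange cup cup 0 0 (by norm_num)) rfl rfl)
    _ = val x y [(cup, 0), (cup, 0), (neg, 2), (cap, 1), (pos, 0), (cap, 0)] := (val_step [(cup, 0), (cup, 0)] [(pos, 0), (cap, 0)] (.slideCapNeg 1) rfl rfl).symm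
    _ = val x y [(cup, 0), (neg, 0), (cup, 0), (cap, 1), (pos, 0), (cap, 0)] := (val_step [(cup, 0)] [(cap, 1), (pos, 0), (cap, 0)] (.exchange cup neg 0 0 (by norm_num)) rfl rfl)
    _ = val x y [(cup, 0), (neg, 0), (pos, 0), (cap, 0)] := (val_step [(cup, 0), (neg, 0)] [(pos, 0), (cap, 0)] (.zigzagRight 0) rfl rfl)
    _ = val x y [(cup, 0), (cap, 0)] := (val_step [(cup, 0)] [(cap, 0)] (.negPos 0) rfl rfl)

theorem eq_F2 :
    val x y [(cup, 0), (cup, 1), (cup, 1), (cup, 0), (cap, 2), (pos, 0), (neg, 2), (cap, 1), (neg, 0), (cap, 1), (cap, 0)] =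
      val x y [(cup, 0), (cup, 1), (neg, 0), (neg, 0), (cap, 1), (cap, 0)] :=
  calc
    val x y [(cup, 0), (cup, 1), (cup, 1), (cup, 0), (cap, 2), (pos, 0), (neg, 2), (cap, 1), (neg, 0), (cap, 1), (cap, 0)]
      = val x y [(cup, 0), (cup, 1), (cup, 1), (cap, 0), (cup, 0), (pos, 0), (neg, 2), (cap, 1), (neg, 0), (cap, 1), (cap, 0)] := (val_step [(cup, 0), (cup, 1), (cup, 1)] [(pos, 0), (neg, 2), (cap, 1), (neg, 0), (cap, 1), (cap, 0)] (.exchange cup cap 0 0 (by norm_num)) rfl rfl)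
    _ = val x y [(cup, 0), (cup, 1), (cup, 1), (cap, 0), (cup, 0), (cup, 2), (pos, 1), (cap, 2), (pos, 0), (neg, 2), (cap, 1), (neg, 0), (cap, 1), (cap, 0)] := (val_r1 [(cup, 0), (cup, 1), (cup, 1), (cap, 0), (cup, 0)] [(pos, 0), (neg, 2), (cap, 1), (neg, 0), (cap, 1), (cap, 0)] 1 rfl rfl).symm
    _ = val x y [(cup, 0), (cup, 1), (cup, 1), (cap, 0), (cup, 0), (cup, 0), (pos, 1), (cap, 2), (pos, 0), (neg, 2), (cap, 1), (neg, 0), (cap, 1), (cap, 0)] := (val_step [(cup, 0), (cup, 1), (cup, 1), (cap, 0)] [(pos, 1), (cap, 2), (pos, 0), (neg, 2), (cap, 1), (neg, 0), (cap, 1), (cap, 0)] (.exchange cup cup 0 0 (by norm_num)) rfl rfl)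
    _ = val x y [(cup, 0), (cup, 1), (cup, 1), (cap, 0), (cup, 0), (cup, 0), (neg, 2), (cap, 1), (pos, 0), (neg, 2), (cap, 1), (neg, 0), (cap, 1), (cap, 0)] := (val_step [(cup, 0), (cup, 1), (cup, 1), (cap, 0), (cup, 0), (cup, 0)] [(pos, 0), (neg, 2), (cap, 1), (neg, 0), (cap, 1), (cap, 0)] (.slideCapNeg 1) rfl rfl).symm
    _ = val x y [(cup, 0), (cup, 1), (cup, 1), (cap, 0), (cup, 0), (neg, 0), (cup, 0), (cap, 1), (pos, 0), (neg, 2), (cap, 1), (neg, 0), (cap, 1), (cap, 0)] := (val_step [(cup, 0), (cup, 1), (cup, 1), (cap, 0), (cup, 0)] [(cap, 1), (pos, 0), (neg, 2), (cap, 1), (neg, 0), (cap, 1), (cap, 0)] (.exchange cup neg 0 0 (by norm_num)) rfl rfl)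
    _ = val x y [(cup, 0), (cup, 1), (cup, 1), (cap, 0), (cup, 0), (neg, 0), (pos, 0), (neg, 2), (cap, 1), (neg, 0), (cap, 1), (cap, 0)] := (val_step [(cup, 0), (cup, 1), (cup, 1), (cap, 0), (cup, 0), (neg, 0)] [(pos, 0), (neg, 2), (cap, 1), (neg, 0), (cap, 1), (cap, 0)] (.zigzagRight 0) rfl rfl)
    _ = val x y [(cup, 0), (cup, 1), (cup, 1), (cap, 0), (cup, 0), (neg, 2), (cap, 1), (neg, 0), (cap, 1), (cap, 0)] := (val_step [(cup, 0), (cup, 1), (cup, 1), (cap, 0), (cup, 0)] [(neg, 2), (cap, 1), (neg, 0), (cap, 1), (cap, 0)] (.negPos 0) rfl rfl)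
    _ = val x y [(cup, 0), (cup, 1), (cup, 1), (cap, 0), (neg, 0), (cup, 0), (cap, 1), (neg, 0), (cap, 1), (cap, 0)] := (val_step [(cup, 0), (cup, 1), (cup, 1), (cap, 0)] [(cap, 1), (neg, 0), (cap, 1), (cap, 0)] (.exchange cup neg 0 0 (by norm_num)) rfl rfl)
    _ = val x y [(cup, 0), (cup, 1), (cup, 1), (cap, 0), (neg, 0), (neg, 0), (cap, 1), (cap, 0)] := (val_step [(cup, 0), (cup, 1), (cup, 1), (cap, 0), (neg, 0)] [(neg, 0), (cap, 1), (cap, 0)] (.zigzagRight 0) rfl rfl)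
    _ = val x y [(cup, 0), (cup, 1), (neg, 0), (neg, 0), (cap, 1), (cap, 0)] := (val_step [(cup, 0), (cup, 1)] [(neg, 0), (neg, 0), (cap, 1), (cap, 0)] (.zigzagLeft 0) rfl rfl)

theorem eq_F3 :
    val x y [(cup, 0), (cup, 1), (cup, 1), (cup, 0), (neg, 1), (cap, 2), (pos, 0), (neg, 2), (cap, 1), (neg, 0), (cap, 1), (cap, 0)] =
      val x y [(cup, 0), (cup, 1), (cup, 1), (pos, 0), (pos, 0), (neg, 2), (cap, 1), (neg, 0), (cap, 1), (cap, 0)] :=
  calc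
    val x y [(cup, 0), (cup, 1), (cup, 1), (cup, 0), (neg, 1), (cap, 2), (pos, 0), (neg, 2), (cap, 1), (neg, 0), (cap, 1), (cap, 0)]
      = val x y [(cup, 0), (cup, 1), (cup, 1), (cup, 1), (pos, 0), (cap, 2), (pos, 0), (neg, 2), (cap, 1), (neg, 0), (cap, 1), (cap, 0)] := (val_step [(cup, 0), (cup, 1), (cup, 1)] [(cap, 2), (pos, 0), (neg, 2), (cap, 1), (neg, 0), (cap, 1), (cap, 0)] (.slideCupNeg 0) rfl rfl)
    _ = val x y [(cup, 0), (cup, 1), (cup, 1), (cup, 1), (cap, 2), (pos, 0), (pos, 0), (neg, 2), (cap, 1), (neg, 0), (cap, 1), (cap, 0)] := (val_step [(cup, 0), (cup, 1), (cup, 1), (cup, 1)] [(pos, 0), (neg, 2), (cap, 1), (neg, 0), (cap, 1), (cap, 0)] (.exchange pos cap 0 0 (by norm_num)) rfl rfl)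
    _ = val x y [(cup, 0), (cup, 1), (cup, 1), (pos, 0), (pos, 0), (neg, 2), (cap, 1), (neg, 0), (cap, 1), (cap, 0)] := (val_step [(cup, 0), (cup, 1), (cup, 1)] [(pos, 0), (pos, 0), (neg, 2), (cap, 1), (neg, 0), (cap, 1), (cap, 0)] (.zigzagRight 1) rfl rfl)

theorem eq_F4 :
    val x y [(cup, 0), (cup, 1), (cup, 1), (cup, 0), (cap, 1), (cup, 1), (cap, 2), (pos, 0), (neg, 2), (cap, 1), (neg, 0), (cap, 1), (cap, 0)] =
      val x y [(cup, 0), (cap, 0)] :=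
  calc
    val x y [(cup, 0), (cup, 1), (cup, 1), (cup, 0), (cap, 1), (cup, 1), (cap, 2), (pos, 0), (neg, 2), (cap, 1), (neg, 0), (cap, 1), (cap, 0)]
      = val x y [(cup, 0), (cup, 1), (cup, 1), (cup, 0), (cap, 1), (pos, 0), (neg, 2), (cap, 1), (neg, 0), (cap, 1), (cap, 0)] := (val_step [(cup, 0), (cup, 1), (cup, 1), (cup, 0), (cap, 1)] [(pos, 0), (neg, 2), (cap, 1), (neg, 0), (cap, 1), (cap, 0)] (.zigzagRight 1) rfl rfl)
    _ = val x y [(cup, 0), (cup, 1), (cup, 1), (pos, 0), (neg, 2), (cap, 1), (neg, 0), (cap, 1), (cap, 0)] := (val_step [(cup, 0), (cup, 1), (cup, 1)] [(pos, 0), (neg, 2), (cap, 1), (neg, 0), (cap, 1), (cap, 0)] (.zigzagRight 0) rfl rfl)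
    _ = val x y [(cup, 0), (cup, 1), (cup, 0), (neg, 1), (neg, 2), (cap, 1), (neg, 0), (cap, 1), (cap, 0)] := (val_step [(cup, 0), (cup, 1)] [(neg, 2), (cap, 1), (neg, 0), (cap, 1), (cap, 0)] (.slideCupNeg 0) rfl rfl).symm
    _ = val x y [(cup, 0), (cup, 1), (cup, 0), (neg, 1), (pos, 1), (cap, 2), (neg, 0), (cap, 1), (cap, 0)] := (val_step [(cup, 0), (cup, 1), (cup, 0), (neg, 1)] [(neg, 0), (cap, 1), (cap, 0)] (.slideCapNeg 1) rfl rfl)
    _ = val x y [(cup, 0), (cup, 1), (cup, 0), (cap, 2), (neg, 0), (cap, 1), (cap, 0)] := (val_step [(cup, 0), (cup, 1), (cup, 0)] [(cap, 2), (neg, 0), (cap, 1), (cap, 0)] (.negPos 1) rfl rfl)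
    _ = val x y [(cup, 0), (cup, 1), (cap, 0), (cup, 0), (neg, 0), (cap, 1), (cap, 0)] := (val_step [(cup, 0), (cup, 1)] [(neg, 0), (cap, 1), (cap, 0)] (.exchange cup cap 0 0 (by norm_num)) rfl rfl)
    _ = val x y [(cup, 0), (cup, 1), (cap, 0), (cup, 0), (neg, 0), (cup, 0), (cap, 1), (cap, 1), (cap, 0)] := (val_step [(cup, 0), (cup, 1), (cap, 0), (cup, 0), (neg, 0)] [(cap, 1), (cap, 0)] (.zigzagRight 0) rfl rfl).symm
    _ = val x y [(cup, 0), (cup, 1), (cap, 0), (cup, 0), (cup, 0), (neg, 2), (cap, 1), (cap, 1), (cap, 0)] := (val_step [(cup, 0), (cup, 1), (cap, 0), (cup, 0)] [(cap, 1), (cap, 1), (cap, 0)] (.exchange cup neg 0 0 (by norm_num)) rfl rfl).symm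
    _ = val x y [(cup, 0), (cup, 1), (cap, 0), (cup, 0), (cup, 2), (neg, 2), (cap, 1), (cap, 1), (cap, 0)] := (val_step [(cup, 0), (cup, 1), (cap, 0)] [(neg, 2), (cap, 1), (cap, 1), (cap, 0)] (.exchange cup cup 0 0 (by norm_num)) rfl rfl).symm
    _ = val x y [(cup, 0), (cup, 1), (cap, 0), (cup, 0), (cup, 2), (pos, 1), (cap, 2), (cap, 1), (cap, 0)] := (val_step [(cup, 0), (cup, 1), (cap, 0), (cup, 0), (cup, 2)] [(cap, 1), (cap, 0)] (.slideCapNeg 1) rfl rfl)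
    _ = val x y [(cup, 0), (cup, 1), (cap, 0), (cup, 0), (cap, 1), (cap, 0)] := (val_r1 [(cup, 0), (cup, 1), (cap, 0), (cup, 0)] [(cap, 1), (cap, 0)] 1 rfl rfl)
    _ = val x y [(cup, 0), (cup, 0), (cap, 1), (cap, 0)] := (val_step [(cup, 0)] [(cup, 0), (cap, 1), (cap, 0)] (.zigzagLeft 0) rfl rfl)
    _ = val x y [(cup, 0), (cap, 0)] := (val_step [(cup, 0)] [(cap, 0)] (.zigzagRight 0) rfl rfl)

theorem eq_G1 :
    val x y [(cup, 0), (cup, 1), (cup, 1), (pos, 0), (neg, 2), (cap, 1), (neg, 0), (cap, 1), (cap, 0)] =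
      val x y [(cup, 0), (cap, 0)] :=
  calc
    val x y [(cup, 0), (cup, 1), (cup, 1), (pos, 0), (neg, 2), (cap, 1), (neg, 0), (cap, 1), (cap, 0)]
      = val x y [(cup, 0), (cup, 1), (cup, 0), (neg, 1), (neg, 2), (cap, 1), (neg, 0), (cap, 1), (cap, 0)] := (val_step [(cup, 0), (cup, 1)] [(neg, 2), (cap, 1), (neg, 0), (cap, 1), (cap, 0)] (.slideCupNeg 0) rfl rfl).symm
    _ = val x y [(cup, 0), (cup, 1), (cup, 0), (neg, 1), (pos, 1), (cap, 2), (neg, 0), (cap, 1), (cap, 0)] := (val_step [(cup, 0), (cup, 1), (cup, 0), (neg, 1)] [(neg, 0), (cap, 1), (cap, 0)] (.slideCapNeg 1) rfl rfl)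
    _ = val x y [(cup, 0), (cup, 1), (cup, 0), (cap, 2), (neg, 0), (cap, 1), (cap, 0)] := (val_step [(cup, 0), (cup, 1), (cup, 0)] [(cap, 2), (neg, 0), (cap, 1), (cap, 0)] (.negPos 1) rfl rfl)
    _ = val x y [(cup, 0), (cup, 1), (cap, 0), (cup, 0), (neg, 0), (cap, 1), (cap, 0)] := (val_step [(cup, 0), (cup, 1)] [(neg, 0), (cap, 1), (cap, 0)] (.exchange cup cap 0 0 (by norm_num)) rfl rfl)
    _ = val x y [(cup, 0), (cup, 1), (cap, 0), (cup, 0), (neg, 0), (cup, 0), (cap, 1), (cap, 1), (cap, 0)] := (val_step [(cup, 0), (cup, 1), (cap, 0), (cup, 0), (neg, 0)] [(cap, 1), (cap, 0)] (.zigzagRight 0) rfl rfl).symm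
    _ = val x y [(cup, 0), (cup, 1), (cap, 0), (cup, 0), (cup, 0), (neg, 2), (cap, 1), (cap, 1), (cap, 0)] := (val_step [(cup, 0), (cup, 1), (cap, 0), (cup, 0)] [(cap, 1), (cap, 1), (cap, 0)] (.exchange cup neg 0 0 (by norm_num)) rfl rfl).symm
    _ = val x y [(cup, 0), (cup, 1), (cap, 0), (cup, 0), (cup, 2), (neg, 2), (cap, 1), (cap, 1), (cap, 0)] := (val_step [(cup, 0), (cup, 1), (cap, 0)] [(neg, 2), (cap, 1), (cap, 1), (cap, 0)] (.exchange cup cup 0 0 (by norm_num)) rfl rfl).symm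
    _ = val x y [(cup, 0), (cup, 1), (cap, 0), (cup, 0), (cup, 2), (pos, 1), (cap, 2), (cap, 1), (cap, 0)] := (val_step [(cup, 0), (cup, 1), (cap, 0), (cup, 0), (cup, 2)] [(cap, 1), (cap, 0)] (.slideCapNeg 1) rfl rfl)
    _ = val x y [(cup, 0), (cup, 1), (cap, 0), (cup, 0), (cap, 1), (cap, 0)] := (val_r1 [(cup, 0), (cup, 1), (cap, 0), (cup, 0)] [(cap, 1), (cap, 0)] 1 rfl rfl)
    _ = val x y [(cup, 0), (cup, 0), (cap, 1), (cap, 0)] := (val_step [(cup, 0)] [(cup, 0), (cap, 1), (cap, 0)] (.zigzagLeft 0) rfl rfl)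
    _ = val x y [(cup, 0), (cap, 0)] := (val_step [(cup, 0)] [(cap, 0)] (.zigzagRight 0) rfl rfl)

theorem eq_G2 :
    val x y [(cup, 0), (cup, 1), (cup, 1), (neg, 2), (cap, 1), (neg, 0), (cap, 1), (cap, 0)] =
      val x y [(cup, 0), (cap, 0)] :=
  calc
    val x y [(cup, 0), (cup, 1), (cup, 1), (neg, 2), (cap, 1), (neg, 0), (cap, 1), (cap, 0)]
      = val x y [(cup, 0), (cup, 1), (cup, 2), (pos, 1), (cap, 1), (neg, 0), (cap, 1), (cap, 0)] := (val_step [(cup, 0), (cup, 1)] [(cap, 1), (neg, 0), (cap, 1), (cap, 0)] (.slideCupNeg 1) rfl rfl)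
    _ = val x y [(cup, 0), (cup, 1), (cup, 2), (pos, 1), (cup, 3), (pos, 2), (cap, 3), (cap, 1), (neg, 0), (cap, 1), (cap, 0)] := (val_r1 [(cup, 0), (cup, 1), (cup, 2), (pos, 1)] [(cap, 1), (neg, 0), (cap, 1), (cap, 0)] 2 rfl rfl).symm
    _ = val x y [(cup, 0), (cup, 1), (cup, 2), (pos, 1), (cup, 3), (pos, 2), (cap, 1), (cap, 1), (neg, 0), (cap, 1), (cap, 0)] := (val_step [(cup, 0), (cup, 1), (cup, 2), (pos, 1), (cup, 3), (pos, 2)] [(neg, 0), (cap, 1), (cap, 0)] (.exchange cap cap 1 1 (by norm_num)) rfl rfl).symm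
    _ = val x y [(cup, 0), (cup, 1), (cup, 2), (cup, 3), (pos, 1), (pos, 2), (cap, 1), (cap, 1), (neg, 0), (cap, 1), (cap, 0)] := (val_step [(cup, 0), (cup, 1), (cup, 2)] [(pos, 2), (cap, 1), (cap, 1), (neg, 0), (cap, 1), (cap, 0)] (.exchange pos cup 1 1 (by norm_num)) rfl rfl)
    _ = val x y [(cup, 0), (cup, 1), (cup, 2), (cup, 3), (pos, 1), (neg, 1), (cap, 2), (cap, 1), (neg, 0), (cap, 1), (cap, 0)] := (val_step [(cup, 0), (cup, 1), (cup, 2), (cup, 3), (pos, 1)] [(cap, 1), (neg, 0), (cap, 1), (cap, 0)] (.slideCapPos 1) rfl rfl)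
    _ = val x y [(cup, 0), (cup, 1), (cup, 2), (cup, 3), (cap, 2), (cap, 1), (neg, 0), (cap, 1), (cap, 0)] := (val_step [(cup, 0), (cup, 1), (cup, 2), (cup, 3)] [(cap, 2), (cap, 1), (neg, 0), (cap, 1), (cap, 0)] (.posNeg 1) rfl rfl)
    _ = val x y [(cup, 0), (cup, 1), (cup, 2), (cap, 1), (neg, 0), (cap, 1), (cap, 0)] := (val_step [(cup, 0), (cup, 1), (cup, 2)] [(cap, 1), (neg, 0), (cap, 1), (cap, 0)] (.zigzagLeft 2) rfl rfl)
    _ = val x y [(cup, 0), (cup, 1), (neg, 0), (cap, 1), (cap, 0)] := (val_step [(cup, 0), (cup, 1)] [(neg, 0), (cap, 1), (cap, 0)] (.zigzagLeft 1) rfl rfl)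
    _ = val x y [(cup, 0), (cup, 1), (neg, 0), (pos, 0), (neg, 0), (cap, 1), (cap, 0)] := (val_step [(cup, 0), (cup, 1)] [(neg, 0), (cap, 1), (cap, 0)] (.negPos 0) rfl rfl).symm
    _ = val x y [(cup, 0), (cup, 0), (pos, 1), (pos, 0), (neg, 0), (cap, 1), (cap, 0)] := (val_step [(cup, 0)] [(pos, 0), (neg, 0), (cap, 1), (cap, 0)] (.slideCupPos 0) rfl rfl).symm
    _ = val x y [(cup, 0), (cup, 2), (pos, 1), (pos, 0), (neg, 0), (cap, 1), (cap, 0)] := (val_step [] [(pos, 1), (pos, 0), (neg, 0), (cap, 1), (cap, 0)] (.exchange cup cup 0 0 (by norm_num)) rfl rfl).symm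
    _ = val x y [(cup, 0), (cup, 2), (pos, 1), (pos, 0), (pos, 1), (cap, 0), (cap, 0)] := (val_step [(cup, 0), (cup, 2), (pos, 1), (pos, 0)] [(cap, 0)] (.slideCapPos 0) rfl rfl).symm
    _ = val x y [(cup, 0), (cup, 2), (pos, 1), (pos, 0), (pos, 1), (cap, 2), (cap, 0)] := (val_step [(cup, 0), (cup, 2), (pos, 1), (pos, 0), (pos, 1)] [] (.exchange cap cap 0 0 (by norm_num)) rfl rfl)
    _ = val x y [(cup, 0), (cup, 2), (pos, 0), (pos, 1), (pos, 0), (cap, 2), (cap, 0)] := (val_step [(cup, 0), (cup, 2)] [(cap, 2), (cap, 0)] (.triangle 0) rfl rfl).symm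
    _ = val x y [(cup, 0), (pos, 0), (cup, 2), (pos, 1), (pos, 0), (cap, 2), (cap, 0)] := (val_step [(cup, 0)] [(pos, 1), (pos, 0), (cap, 2), (cap, 0)] (.exchange pos cup 0 0 (by norm_num)) rfl rfl).symm
    _ = val x y [(cup, 0), (pos, 0), (cup, 2), (pos, 1), (cap, 2), (pos, 0), (cap, 0)] := (val_step [(cup, 0), (pos, 0), (cup, 2), (pos, 1)] [(cap, 0)] (.exchange pos cap 0 0 (by norm_num)) rfl rfl)
    _ = val x y [(cup, 0), (pos, 0), (pos, 0), (cap, 0)] := (val_r1 [(cup, 0), (pos, 0)] [(pos, 0), (cap, 0)] 1 rfl rfl)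
    _ = val x y [(cup, 0), (cup, 2), (pos, 1), (cap, 2), (pos, 0), (pos, 0), (cap, 0)] := (val_r1 [(cup, 0)] [(pos, 0), (pos, 0), (cap, 0)] 1 rfl rfl).symm
    _ = val x y [(cup, 0), (cup, 0), (pos, 1), (cap, 2), (pos, 0), (pos, 0), (cap, 0)] := (val_step [] [(pos, 1), (cap, 2), (pos, 0), (pos, 0), (cap, 0)] (.exchange cup cup 0 0 (by norm_num)) rfl rfl)
    _ = val x y [(cup, 0), (cup, 0), (pos, 1), (pos, 0), (cap, 2), (pos, 0), (cap, 0)] := (val_step [(cup, 0), (cup, 0), (pos, 1)] [(pos, 0), (cap, 0)] (.exchange pos cap 0 0 (by norm_num)) rfl rfl).symm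
    _ = val x y [(cup, 0), (cup, 1), (neg, 0), (pos, 0), (cap, 2), (pos, 0), (cap, 0)] := (val_step [(cup, 0)] [(pos, 0), (cap, 2), (pos, 0), (cap, 0)] (.slideCupPos 0) rfl rfl)
    _ = val x y [(cup, 0), (cup, 1), (cap, 2), (pos, 0), (cap, 0)] := (val_step [(cup, 0), (cup, 1)] [(cap, 2), (pos, 0), (cap, 0)] (.negPos 0) rfl rfl)
    _ = val x y [(cup, 0), (pos, 0), (cap, 0)] := (val_step [(cup, 0)] [(pos, 0), (cap, 0)] (.zigzagRight 1) rfl rfl)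
    _ = val x y [(cup, 0), (cup, 2), (pos, 1), (cap, 2), (pos, 0), (cap, 0)] := (val_r1 [(cup, 0)] [(pos, 0), (cap, 0)] 1 rfl rfl).symm
    _ = val x y [(cup, 0), (cup, 0), (pos, 1), (cap, 2), (pos, 0), (cap, 0)] := (val_step [] [(pos, 1), (cap, 2), (pos, 0), (cap, 0)] (.exchange cup cup 0 0 (by norm_num)) rfl rfl)
    _ = val x y [(cup, 0), (cup, 0), (neg, 2), (cap, 1), (pos, 0), (cap, 0)] := (val_step [(cup, 0), (cup, 0)] [(pos, 0), (cap, 0)] (.slideCapNeg 1) rfl rfl).symm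
    _ = val x y [(cup, 0), (neg, 0), (cup, 0), (cap, 1), (pos, 0), (cap, 0)] := (val_step [(cup, 0)] [(cap, 1), (pos, 0), (cap, 0)] (.exchange cup neg 0 0 (by norm_num)) rfl rfl)
    _ = val x y [(cup, 0), (neg, 0), (pos, 0), (cap, 0)] := (val_step [(cup, 0), (neg, 0)] [(pos, 0), (cap, 0)] (.zigzagRight 0) rfl rfl)
    _ = val x y [(cup, 0), (cap, 0)] := (val_step [(cup, 0)] [(cap, 0)] (.negPos 0) rfl rfl)

theorem eq_G3 :
    val x y [(cup, 0), (cup, 1), (cup, 1), (neg, 0), (neg, 2), (cap, 1), (neg, 0), (cap, 1), (cap, 0)] =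
      val x y [(cup, 0), (cup, 1), (cup, 0), (pos, 1), (pos, 1), (cap, 2), (neg, 0), (cap, 1), (cap, 0)] :=
  calc
    val x y [(cup, 0), (cup, 1), (cup, 1), (neg, 0), (neg, 2), (cap, 1), (neg, 0), (cap, 1), (cap, 0)]
      = val x y [(cup, 0), (cup, 1), (cup, 0), (pos, 1), (neg, 2), (cap, 1), (neg, 0), (cap, 1), (cap, 0)] := (val_step [(cup, 0), (cup, 1)] [(neg, 2), (cap, 1), (neg, 0), (cap, 1), (cap, 0)] (.slideCupPos 0) rfl rfl).symm
    _ = val x y [(cup, 0), (cup, 1), (cup, 0), (pos, 1), (pos, 1), (cap, 2), (neg, 0), (cap, 1), (cap, 0)] := (val_step [(cup, 0), (cup, 1), (cup, 0), (pos, 1)] [(neg, 0), (cap, 1), (cap, 0)] (.slideCapNeg 1) rfl rfl)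

theorem eq_G4 :
    val x y [(cup, 0), (cup, 1), (cup, 1), (cap, 0), (cup, 0), (neg, 2), (cap, 1), (neg, 0), (cap, 1), (cap, 0)] =
      val x y [(cup, 0), (cup, 1), (neg, 0), (neg, 0), (cap, 1), (cap, 0)] :=
  calc
    val x y [(cup, 0), (cup, 1), (cup, 1), (cap, 0), (cup, 0), (neg, 2), (cap, 1), (neg, 0), (cap, 1), (cap, 0)]
      = val x y [(cup, 0), (cup, 1), (cup, 1), (cap, 0), (neg, 0), (cup, 0), (cap, 1), (neg, 0), (cap, 1), (cap, 0)] := (val_step [(cup, 0), (cup, 1), (cup, 1), (cap, 0)] [(cap, 1), (neg, 0), (cap, 1), (cap, 0)] (.exchange cup neg 0 0 (by norm_num)) rfl rfl)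
    _ = val x y [(cup, 0), (cup, 1), (cup, 1), (cap, 0), (neg, 0), (neg, 0), (cap, 1), (cap, 0)] := (val_step [(cup, 0), (cup, 1), (cup, 1), (cap, 0), (neg, 0)] [(neg, 0), (cap, 1), (cap, 0)] (.zigzagRight 0) rfl rfl)
    _ = val x y [(cup, 0), (cup, 1), (neg, 0), (neg, 0), (cap, 1), (cap, 0)] := (val_step [(cup, 0), (cup, 1)] [(neg, 0), (neg, 0), (cap, 1), (cap, 0)] (.zigzagLeft 0) rfl rfl)

theorem eq_H1 :
    val x y [(cup, 0), (cup, 1), (cup, 0), (pos, 1), (cap, 2), (neg, 0), (cap, 1), (cap, 0)] =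
      val x y [(cup, 0), (cup, 1), (neg, 0), (neg, 0), (cap, 1), (cap, 0)] :=
  calc
    val x y [(cup, 0), (cup, 1), (cup, 0), (pos, 1), (cap, 2), (neg, 0), (cap, 1), (cap, 0)]
      = val x y [(cup, 0), (cup, 1), (cup, 1), (neg, 0), (cap, 2), (neg, 0), (cap, 1), (cap, 0)] := (val_step [(cup, 0), (cup, 1)] [(cap, 2), (neg, 0), (cap, 1), (cap, 0)] (.slideCupPos 0) rfl rfl)
    _ = val x y [(cup, 0), (cup, 1), (cup, 1), (cap, 2), (neg, 0), (neg, 0), (cap, 1), (cap, 0)] := (val_step [(cup, 0), (cup, 1), (cup, 1)] [(neg, 0), (cap, 1), (cap, 0)] (.exchange neg cap 0 0 (by norm_num)) rfl rfl)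
    _ = val x y [(cup, 0), (cup, 1), (neg, 0), (neg, 0), (cap, 1), (cap, 0)] := (val_step [(cup, 0), (cup, 1)] [(neg, 0), (neg, 0), (cap, 1), (cap, 0)] (.zigzagRight 1) rfl rfl)

theorem eq_H2 :
    val x y [(cup, 0), (cup, 1), (cup, 0), (cap, 2), (neg, 0), (cap, 1), (cap, 0)] =
      val x y [(cup, 0), (cap, 0)] :=
  calc
    val x y [(cup, 0), (cup, 1), (cup, 0), (cap, 2), (neg, 0), (cap, 1), (cap, 0)]
      = val x y [(cup, 0), (cup, 1), (cap, 0), (cup, 0), (neg, 0), (cap, 1), (cap, 0)] := (val_step [(cup, 0), (cup, 1)] [(neg, 0), (cap, 1), (cap, 0)] (.exchange cup cap 0 0 (by norm_num)) rfl rfl)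
    _ = val x y [(cup, 0), (cup, 1), (cap, 0), (cup, 0), (neg, 0), (cup, 0), (cap, 1), (cap, 1), (cap, 0)] := (val_step [(cup, 0), (cup, 1), (cap, 0), (cup, 0), (neg, 0)] [(cap, 1), (cap, 0)] (.zigzagRight 0) rfl rfl).symm
    _ = val x y [(cup, 0), (cup, 1), (cap, 0), (cup, 0), (cup, 0), (neg, 2), (cap, 1), (cap, 1), (cap, 0)] := (val_step [(cup, 0), (cup, 1), (cap, 0), (cup, 0)] [(cap, 1), (cap, 1), (cap, 0)] (.exchange cup neg 0 0 (by norm_num)) rfl rfl).symm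
    _ = val x y [(cup, 0), (cup, 1), (cap, 0), (cup, 0), (cup, 2), (neg, 2), (cap, 1), (cap, 1), (cap, 0)] := (val_step [(cup, 0), (cup, 1), (cap, 0)] [(neg, 2), (cap, 1), (cap, 1), (cap, 0)] (.exchange cup cup 0 0 (by norm_num)) rfl rfl).symm
    _ = val x y [(cup, 0), (cup, 1), (cap, 0), (cup, 0), (cup, 2), (pos, 1), (cap, 2), (cap, 1), (cap, 0)] := (val_step [(cup, 0), (cup, 1), (cap, 0), (cup, 0), (cup, 2)] [(cap, 1), (cap, 0)] (.slideCapNeg 1) rfl rfl)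
    _ = val x y [(cup, 0), (cup, 1), (cap, 0), (cup, 0), (cap, 1), (cap, 0)] := (val_r1 [(cup, 0), (cup, 1), (cap, 0), (cup, 0)] [(cap, 1), (cap, 0)] 1 rfl rfl)
    _ = val x y [(cup, 0), (cup, 0), (cap, 1), (cap, 0)] := (val_step [(cup, 0)] [(cup, 0), (cap, 1), (cap, 0)] (.zigzagLeft 0) rfl rfl)
    _ = val x y [(cup, 0), (cap, 0)] := (val_step [(cup, 0)] [(cap, 0)] (.zigzagRight 0) rfl rfl)

theorem eq_H3 :
    val x y [(cup, 0), (cup, 1), (cup, 0), (neg, 1), (cap, 2), (neg, 0), (cap, 1), (cap, 0)] =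
      val x y [(cup, 0), (cap, 0), (cup, 0), (cap, 0)] :=
  calc
    val x y [(cup, 0), (cup, 1), (cup, 0), (neg, 1), (cap, 2), (neg, 0), (cap, 1), (cap, 0)]
      = val x y [(cup, 0), (cup, 1), (cup, 1), (pos, 0), (cap, 2), (neg, 0), (cap, 1), (cap, 0)] := (val_step [(cup, 0), (cup, 1)] [(cap, 2), (neg, 0), (cap, 1), (cap, 0)] (.slideCupNeg 0) rfl rfl)
    _ = val x y [(cup, 0), (cup, 1), (cup, 1), (cap, 2), (pos, 0), (neg, 0), (cap, 1), (cap, 0)] := (val_step [(cup, 0), (cup, 1), (cup, 1)] [(neg, 0), (cap, 1), (cap, 0)] (.exchange pos cap 0 0 (by norm_num)) rfl rfl)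
    _ = val x y [(cup, 0), (cup, 1), (pos, 0), (neg, 0), (cap, 1), (cap, 0)] := (val_step [(cup, 0), (cup, 1)] [(pos, 0), (neg, 0), (cap, 1), (cap, 0)] (.zigzagRight 1) rfl rfl)
    _ = val x y [(cup, 0), (cup, 1), (cap, 1), (cap, 0)] := (val_step [(cup, 0), (cup, 1)] [(cap, 1), (cap, 0)] (.posNeg 0) rfl rfl)
    _ = val x y [(cup, 0), (cup, 1), (pos, 0), (neg, 0), (cap, 1), (cap, 0)] := (val_step [(cup, 0), (cup, 1)] [(cap, 1), (cap, 0)] (.posNeg 0) rfl rfl).symm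
    _ = val x y [(cup, 0), (cup, 0), (neg, 1), (neg, 0), (cap, 1), (cap, 0)] := (val_step [(cup, 0)] [(neg, 0), (cap, 1), (cap, 0)] (.slideCupNeg 0) rfl rfl).symm
    _ = val x y [(cup, 0), (cup, 2), (neg, 1), (neg, 0), (cap, 1), (cap, 0)] := (val_step [] [(neg, 1), (neg, 0), (cap, 1), (cap, 0)] (.exchange cup cup 0 0 (by norm_num)) rfl rfl).symm
    _ = val x y [(cup, 0), (cup, 2), (neg, 1), (pos, 1), (cap, 0), (cap, 0)] := (val_step [(cup, 0), (cup, 2), (neg, 1)] [(cap, 0)] (.slideCapPos 0) rfl rfl).symm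
    _ = val x y [(cup, 0), (cup, 2), (cap, 0), (cap, 0)] := (val_step [(cup, 0), (cup, 2)] [(cap, 0), (cap, 0)] (.negPos 1) rfl rfl)
    _ = val x y [(cup, 0), (cap, 0), (cup, 0), (cap, 0)] := (val_step [(cup, 0)] [(cap, 0)] (.exchange cap cup 0 0 (by norm_num)) rfl rfl).symm

theorem eq_H4 :
    val x y [(cup, 0), (cup, 1), (cup, 0), (cap, 1), (cup, 1), (cap, 2), (neg, 0), (cap, 1), (cap, 0)] =
      val x y [(cup, 0), (cap, 0)] :=
  calc
    val x y [(cup, 0), (cup, 1), (cup, 0), (cap, 1), (cup, 1), (cap, 2), (neg, 0), (cap, 1), (cap, 0)]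
      = val x y [(cup, 0), (cup, 1), (cup, 0), (cap, 1), (neg, 0), (cap, 1), (cap, 0)] := (val_step [(cup, 0), (cup, 1), (cup, 0), (cap, 1)] [(neg, 0), (cap, 1), (cap, 0)] (.zigzagRight 1) rfl rfl)
    _ = val x y [(cup, 0), (cup, 1), (neg, 0), (cap, 1), (cap, 0)] := (val_step [(cup, 0), (cup, 1)] [(neg, 0), (cap, 1), (cap, 0)] (.zigzagRight 0) rfl rfl)
    _ = val x y [(cup, 0), (cup, 1), (neg, 0), (pos, 0), (neg, 0), (cap, 1), (cap, 0)] := (val_step [(cup, 0), (cup, 1)] [(neg, 0), (cap, 1), (cap, 0)] (.negPos 0) rfl rfl).symm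
    _ = val x y [(cup, 0), (cup, 0), (pos, 1), (pos, 0), (neg, 0), (cap, 1), (cap, 0)] := (val_step [(cup, 0)] [(pos, 0), (neg, 0), (cap, 1), (cap, 0)] (.slideCupPos 0) rfl rfl).symm
    _ = val x y [(cup, 0), (cup, 2), (pos, 1), (pos, 0), (neg, 0), (cap, 1), (cap, 0)] := (val_step [] [(pos, 1), (pos, 0), (neg, 0), (cap, 1), (cap, 0)] (.exchange cup cup 0 0 (by norm_num)) rfl rfl).symm
    _ = val x y [(cup, 0), (cup, 2), (pos, 1), (pos, 0), (pos, 1), (cap, 0), (cap, 0)] := (val_step [(cup, 0), (cup, 2), (pos, 1), (pos, 0)] [(cap, 0)] (.slideCapPos 0) rfl rfl).symm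
    _ = val x y [(cup, 0), (cup, 2), (pos, 1), (pos, 0), (pos, 1), (cap, 2), (cap, 0)] := (val_step [(cup, 0), (cup, 2), (pos, 1), (pos, 0), (pos, 1)] [] (.exchange cap cap 0 0 (by norm_num)) rfl rfl)
    _ = val x y [(cup, 0), (cup, 2), (pos, 0), (pos, 1), (pos, 0), (cap, 2), (cap, 0)] := (val_step [(cup, 0), (cup, 2)] [(cap, 2), (cap, 0)] (.triangle 0) rfl rfl).symm
    _ = val x y [(cup, 0), (pos, 0), (cup, 2), (pos, 1), (pos, 0), (cap, 2), (cap, 0)] := (val_step [(cup, 0)] [(pos, 1), (pos, 0), (cap, 2), (cap, 0)] (.exchange pos cup 0 0 (by norm_num)) rfl rfl).symm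
    _ = val x y [(cup, 0), (pos, 0), (cup, 2), (pos, 1), (cap, 2), (pos, 0), (cap, 0)] := (val_step [(cup, 0), (pos, 0), (cup, 2), (pos, 1)] [(cap, 0)] (.exchange pos cap 0 0 (by norm_num)) rfl rfl)
    _ = val x y [(cup, 0), (pos, 0), (pos, 0), (cap, 0)] := (val_r1 [(cup, 0), (pos, 0)] [(pos, 0), (cap, 0)] 1 rfl rfl)
    _ = val x y [(cup, 0), (cup, 2), (pos, 1), (cap, 2), (pos, 0), (pos, 0), (cap, 0)] := (val_r1 [(cup, 0)] [(pos, 0), (pos, 0), (cap, 0)] 1 rfl rfl).symm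
    _ = val x y [(cup, 0), (cup, 0), (pos, 1), (cap, 2), (pos, 0), (pos, 0), (cap, 0)] := (val_step [] [(pos, 1), (cap, 2), (pos, 0), (pos, 0), (cap, 0)] (.exchange cup cup 0 0 (by norm_num)) rfl rfl)
    _ = val x y [(cup, 0), (cup, 0), (pos, 1), (pos, 0), (cap, 2), (pos, 0), (cap, 0)] := (val_step [(cup, 0), (cup, 0), (pos, 1)] [(pos, 0), (cap, 0)] (.exchange pos cap 0 0 (by norm_num)) rfl rfl).symm
    _ = val x y [(cup, 0), (cup, 1), (neg, 0), (pos, 0), (cap, 2), (pos, 0), (cap, 0)] := (val_step [(cup, 0)] [(pos, 0), (cap, 2), (pos, 0), (cap, 0)] (.slideCupPos 0) rfl rfl)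
    _ = val x y [(cup, 0), (cup, 1), (cap, 2), (pos, 0), (cap, 0)] := (val_step [(cup, 0), (cup, 1)] [(cap, 2), (pos, 0), (cap, 0)] (.negPos 0) rfl rfl)
    _ = val x y [(cup, 0), (pos, 0), (cap, 0)] := (val_step [(cup, 0)] [(pos, 0), (cap, 0)] (.zigzagRight 1) rfl rfl)
    _ = val x y [(cup, 0), (cup, 2), (pos, 1), (cap, 2), (pos, 0), (cap, 0)] := (val_r1 [(cup, 0)] [(pos, 0), (cap, 0)] 1 rfl rfl).symm
    _ = val x y [(cup, 0), (cup, 0), (pos, 1), (cap, 2), (pos, 0), (cap, 0)] := (val_step [] [(pos, 1), (cap, 2), (pos, 0), (cap, 0)] (.exchange cup cup 0 0 (by norm_num)) rfl rfl)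
    _ = val x y [(cup, 0), (cup, 0), (neg, 2), (cap, 1), (pos, 0), (cap, 0)] := (val_step [(cup, 0), (cup, 0)] [(pos, 0), (cap, 0)] (.slideCapNeg 1) rfl rfl).symm
    _ = val x y [(cup, 0), (neg, 0), (cup, 0), (cap, 1), (pos, 0), (cap, 0)] := (val_step [(cup, 0)] [(cap, 1), (pos, 0), (cap, 0)] (.exchange cup neg 0 0 (by norm_num)) rfl rfl)
    _ = val x y [(cup, 0), (neg, 0), (pos, 0), (cap, 0)] := (val_step [(cup, 0), (neg, 0)] [(pos, 0), (cap, 0)] (.zigzagRight 0) rfl rfl)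
    _ = val x y [(cup, 0), (cap, 0)] := (val_step [(cup, 0)] [(cap, 0)] (.negPos 0) rfl rfl)

theorem eq_J1 :
    val x y [(cup, 0), (cup, 1), (neg, 0), (cap, 1), (cap, 0)] =
      val x y [(cup, 0), (cap, 0)] :=
  calc
    val x y [(cup, 0), (cup, 1), (neg, 0), (cap, 1), (cap, 0)]
      = val x y [(cup, 0), (cup, 1), (neg, 0), (pos, 0), (neg, 0), (cap, 1), (cap, 0)] := (val_step [(cup, 0), (cup, 1)] [(neg, 0), (cap, 1), (cap, 0)] (.negPos 0) rfl rfl).symm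
    _ = val x y [(cup, 0), (cup, 0), (pos, 1), (pos, 0), (neg, 0), (cap, 1), (cap, 0)] := (val_step [(cup, 0)] [(pos, 0), (neg, 0), (cap, 1), (cap, 0)] (.slideCupPos 0) rfl rfl).symm
    _ = val x y [(cup, 0), (cup, 2), (pos, 1), (pos, 0), (neg, 0), (cap, 1), (cap, 0)] := (val_step [] [(pos, 1), (pos, 0), (neg, 0), (cap, 1), (cap, 0)] (.exchange cup cup 0 0 (by norm_num)) rfl rfl).symm
    _ = val x y [(cup, 0), (cup, 2), (pos, 1), (pos, 0), (pos, 1), (cap, 0), (cap, 0)] := (val_step [(cup, 0), (cup, 2), (pos, 1), (pos, 0)] [(cap, 0)] (.slideCapPos 0) rfl rfl).symm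
    _ = val x y [(cup, 0), (cup, 2), (pos, 1), (pos, 0), (pos, 1), (cap, 2), (cap, 0)] := (val_step [(cup, 0), (cup, 2), (pos, 1), (pos, 0), (pos, 1)] [] (.exchange cap cap 0 0 (by norm_num)) rfl rfl)
    _ = val x y [(cup, 0), (cup, 2), (pos, 0), (pos, 1), (pos, 0), (cap, 2), (cap, 0)] := (val_step [(cup, 0), (cup, 2)] [(cap, 2), (cap, 0)] (.triangle 0) rfl rfl).symm
    _ = val x y [(cup, 0), (pos, 0), (cup, 2), (pos, 1), (pos, 0), (cap, 2), (cap, 0)] := (val_step [(cup, 0)] [(pos, 1), (pos, 0), (cap, 2), (cap, 0)] (.exchange pos cup 0 0 (by norm_num)) rfl rfl).symm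
    _ = val x y [(cup, 0), (pos, 0), (cup, 2), (pos, 1), (cap, 2), (pos, 0), (cap, 0)] := (val_step [(cup, 0), (pos, 0), (cup, 2), (pos, 1)] [(cap, 0)] (.exchange pos cap 0 0 (by norm_num)) rfl rfl)
    _ = val x y [(cup, 0), (pos, 0), (pos, 0), (cap, 0)] := (val_r1 [(cup, 0), (pos, 0)] [(pos, 0), (cap, 0)] 1 rfl rfl)
    _ = val x y [(cup, 0), (cup, 2), (pos, 1), (cap, 2), (pos, 0), (pos, 0), (cap, 0)] := (val_r1 [(cup, 0)] [(pos, 0), (pos, 0), (cap, 0)] 1 rfl rfl).symm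
    _ = val x y [(cup, 0), (cup, 0), (pos, 1), (cap, 2), (pos, 0), (pos, 0), (cap, 0)] := (val_step [] [(pos, 1), (cap, 2), (pos, 0), (pos, 0), (cap, 0)] (.exchange cup cup 0 0 (by norm_num)) rfl rfl)
    _ = val x y [(cup, 0), (cup, 0), (pos, 1), (pos, 0), (cap, 2), (pos, 0), (cap, 0)] := (val_step [(cup, 0), (cup, 0), (pos, 1)] [(pos, 0), (cap, 0)] (.exchange pos cap 0 0 (by norm_num)) rfl rfl).symm
    _ = val x y [(cup, 0), (cup, 1), (neg, 0), (pos, 0), (cap, 2), (pos, 0), (cap, 0)] := (val_step [(cup, 0)] [(pos, 0), (cap, 2), (pos, 0), (cap, 0)] (.slideCupPos 0) rfl rfl)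
    _ = val x y [(cup, 0), (cup, 1), (cap, 2), (pos, 0), (cap, 0)] := (val_step [(cup, 0), (cup, 1)] [(cap, 2), (pos, 0), (cap, 0)] (.negPos 0) rfl rfl)
    _ = val x y [(cup, 0), (pos, 0), (cap, 0)] := (val_step [(cup, 0)] [(pos, 0), (cap, 0)] (.zigzagRight 1) rfl rfl)
    _ = val x y [(cup, 0), (cup, 2), (pos, 1), (cap, 2), (pos, 0), (cap, 0)] := (val_r1 [(cup, 0)] [(pos, 0), (cap, 0)] 1 rfl rfl).symm
    _ = val x y [(cup, 0), (cup, 0), (pos, 1), (cap, 2), (pos, 0), (cap, 0)] := (val_step [] [(pos, 1), (cap, 2), (pos, 0), (cap, 0)] (.exchange cup cup 0 0 (by norm_num)) rfl rfl)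
    _ = val x y [(cup, 0), (cup, 0), (neg, 2), (cap, 1), (pos, 0), (cap, 0)] := (val_step [(cup, 0), (cup, 0)] [(pos, 0), (cap, 0)] (.slideCapNeg 1) rfl rfl).symm
    _ = val x y [(cup, 0), (neg, 0), (cup, 0), (cap, 1), (pos, 0), (cap, 0)] := (val_step [(cup, 0)] [(cap, 1), (pos, 0), (cap, 0)] (.exchange cup neg 0 0 (by norm_num)) rfl rfl)
    _ = val x y [(cup, 0), (neg, 0), (pos, 0), (cap, 0)] := (val_step [(cup, 0), (neg, 0)] [(pos, 0), (cap, 0)] (.zigzagRight 0) rfl rfl)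
    _ = val x y [(cup, 0), (cap, 0)] := (val_step [(cup, 0)] [(cap, 0)] (.negPos 0) rfl rfl)

theorem eq_J2 :
    val x y [(cup, 0), (cup, 1), (pos, 0), (neg, 0), (cap, 1), (cap, 0)] =
      val x y [(cup, 0), (cap, 0), (cup, 0), (cap, 0)] :=
  calc
    val x y [(cup, 0), (cup, 1), (pos, 0), (neg, 0), (cap, 1), (cap, 0)]
      = val x y [(cup, 0), (cup, 1), (cap, 1), (cap, 0)] := (val_step [(cup, 0), (cup, 1)] [(cap, 1), (cap, 0)] (.posNeg 0) rfl rfl)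
    _ = val x y [(cup, 0), (cup, 1), (pos, 0), (neg, 0), (cap, 1), (cap, 0)] := (val_step [(cup, 0), (cup, 1)] [(cap, 1), (cap, 0)] (.posNeg 0) rfl rfl).symm
    _ = val x y [(cup, 0), (cup, 0), (neg, 1), (neg, 0), (cap, 1), (cap, 0)] := (val_step [(cup, 0)] [(neg, 0), (cap, 1), (cap, 0)] (.slideCupNeg 0) rfl rfl).symm
    _ = val x y [(cup, 0), (cup, 2), (neg, 1), (neg, 0), (cap, 1), (cap, 0)] := (val_step [] [(neg, 1), (neg, 0), (cap, 1), (cap, 0)] (.exchange cup cup 0 0 (by norm_num)) rfl rfl).symm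
    _ = val x y [(cup, 0), (cup, 2), (neg, 1), (pos, 1), (cap, 0), (cap, 0)] := (val_step [(cup, 0), (cup, 2), (neg, 1)] [(cap, 0)] (.slideCapPos 0) rfl rfl).symm
    _ = val x y [(cup, 0), (cup, 2), (cap, 0), (cap, 0)] := (val_step [(cup, 0), (cup, 2)] [(cap, 0), (cap, 0)] (.negPos 1) rfl rfl)
    _ = val x y [(cup, 0), (cap, 0), (cup, 0), (cap, 0)] := (val_step [(cup, 0)] [(cap, 0)] (.exchange cap cup 0 0 (by norm_num)) rfl rfl).symm

theorem eq_J3 :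
    val x y [(cup, 0), (cup, 1), (pos, 0), (pos, 0), (neg, 0), (cap, 1), (cap, 0)] =
      val x y [(cup, 0), (cap, 0)] :=
  calc
    val x y [(cup, 0), (cup, 1), (pos, 0), (pos, 0), (neg, 0), (cap, 1), (cap, 0)]
      = val x y [(cup, 0), (cup, 1), (pos, 0), (cap, 1), (cap, 0)] := (val_step [(cup, 0), (cup, 1), (pos, 0)] [(cap, 1), (cap, 0)] (.posNeg 0) rfl rfl)
    _ = val x y [(cup, 0), (cap, 0)] := (val_r1 [(cup, 0)] [(cap, 0)] 0 rfl rfl)

theorem eq_J4 :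
    val x y [(cup, 0), (cup, 1), (cap, 0), (cup, 0), (neg, 0), (cap, 1), (cap, 0)] =
      val x y [(cup, 0), (cap, 0)] :=
  calc
    val x y [(cup, 0), (cup, 1), (cap, 0), (cup, 0), (neg, 0), (cap, 1), (cap, 0)]
      = val x y [(cup, 0), (cup, 1), (cap, 0), (cup, 0), (neg, 0), (cup, 0), (cap, 1), (cap, 1), (cap, 0)] := (val_step [(cup, 0), (cup, 1), (cap, 0), (cup, 0), (neg, 0)] [(cap, 1), (cap, 0)] (.zigzagRight 0) rfl rfl).symm
    _ = val x y [(cup, 0), (cup, 1), (cap, 0), (cup, 0), (cup, 0), (neg, 2), (cap, 1), (cap, 1), (cap, 0)] := (val_step [(cup, 0), (cup, 1), (cap, 0), (cup, 0)] [(cap, 1), (cap, 1), (cap, 0)] (.exchange cup neg 0 0 (by norm_num)) rfl rfl).symm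
    _ = val x y [(cup, 0), (cup, 1), (cap, 0), (cup, 0), (cup, 2), (neg, 2), (cap, 1), (cap, 1), (cap, 0)] := (val_step [(cup, 0), (cup, 1), (cap, 0)] [(neg, 2), (cap, 1), (cap, 1), (cap, 0)] (.exchange cup cup 0 0 (by norm_num)) rfl rfl).symm
    _ = val x y [(cup, 0), (cup, 1), (cap, 0), (cup, 0), (cup, 2), (pos, 1), (cap, 2), (cap, 1), (cap, 0)] := (val_step [(cup, 0), (cup, 1), (cap, 0), (cup, 0), (cup, 2)] [(cap, 1), (cap, 0)] (.slideCapNeg 1) rfl rfl)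
    _ = val x y [(cup, 0), (cup, 1), (cap, 0), (cup, 0), (cap, 1), (cap, 0)] := (val_r1 [(cup, 0), (cup, 1), (cap, 0), (cup, 0)] [(cap, 1), (cap, 0)] 1 rfl rfl)
    _ = val x y [(cup, 0), (cup, 0), (cap, 1), (cap, 0)] := (val_step [(cup, 0)] [(cup, 0), (cap, 1), (cap, 0)] (.zigzagLeft 0) rfl rfl)
    _ = val x y [(cup, 0), (cap, 0)] := (val_step [(cup, 0)] [(cap, 0)] (.zigzagRight 0) rfl rfl)

theorem eq_L1 :
    val x y [(cup, 0), (pos, 0), (cap, 0)] =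
      val x y [(cup, 0), (cap, 0)] :=
  calc
    val x y [(cup, 0), (pos, 0), (cap, 0)]
      = val x y [(cup, 0), (pos, 0), (cup, 2), (pos, 1), (cap, 2), (cap, 0)] := (val_r1 [(cup, 0), (pos, 0)] [(cap, 0)] 1 rfl rfl).symm
    _ = val x y [(cup, 0), (pos, 0), (cup, 2), (pos, 1), (cap, 0), (cap, 0)] := (val_step [(cup, 0), (pos, 0), (cup, 2), (pos, 1)] [] (.exchange cap cap 0 0 (by norm_num)) rfl rfl).symm
    _ = val x y [(cup, 0), (pos, 0), (cup, 2), (neg, 0), (cap, 1), (cap, 0)] := (val_step [(cup, 0), (pos, 0), (cup, 2)] [(cap, 0)] (.slideCapPos 0) rfl rfl)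
    _ = val x y [(cup, 0), (pos, 0), (neg, 0), (cup, 2), (cap, 1), (cap, 0)] := (val_step [(cup, 0), (pos, 0)] [(cap, 1), (cap, 0)] (.exchange neg cup 0 0 (by norm_num)) rfl rfl).symm
    _ = val x y [(cup, 0), (pos, 0), (neg, 0), (cap, 0)] := (val_step [(cup, 0), (pos, 0), (neg, 0)] [(cap, 0)] (.zigzagLeft 1) rfl rfl)
    _ = val x y [(cup, 0), (cap, 0)] := (val_step [(cup, 0)] [(cap, 0)] (.posNeg 0) rfl rfl)

theorem eq_L2 :
    val x y [(cup, 0), (pos, 0), (pos, 0), (cap, 0)] =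
      val x y [(cup, 0), (cap, 0)] :=
  calc
    val x y [(cup, 0), (pos, 0), (pos, 0), (cap, 0)]
      = val x y [(cup, 0), (pos, 0), (pos, 0), (cup, 2), (pos, 1), (cap, 2), (cap, 0)] := (val_r1 [(cup, 0), (pos, 0), (pos, 0)] [(cap, 0)] 1 rfl rfl).symm
    _ = val x y [(cup, 0), (pos, 0), (pos, 0), (cup, 2), (pos, 1), (cap, 0), (cap, 0)] := (val_step [(cup, 0), (pos, 0), (pos, 0), (cup, 2), (pos, 1)] [] (.exchange cap cap 0 0 (by norm_num)) rfl rfl).symm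
    _ = val x y [(cup, 0), (pos, 0), (pos, 0), (cup, 2), (neg, 0), (cap, 1), (cap, 0)] := (val_step [(cup, 0), (pos, 0), (pos, 0), (cup, 2)] [(cap, 0)] (.slideCapPos 0) rfl rfl)
    _ = val x y [(cup, 0), (pos, 0), (pos, 0), (neg, 0), (cup, 2), (cap, 1), (cap, 0)] := (val_step [(cup, 0), (pos, 0), (pos, 0)] [(cap, 1), (cap, 0)] (.exchange neg cup 0 0 (by norm_num)) rfl rfl).symm
    _ = val x y [(cup, 0), (pos, 0), (pos, 0), (neg, 0), (cap, 0)] := (val_step [(cup, 0), (pos, 0), (pos, 0), (neg, 0)] [(cap, 0)] (.zigzagLeft 1) rfl rfl)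
    _ = val x y [(cup, 0), (pos, 0), (cap, 0)] := (val_step [(cup, 0), (pos, 0)] [(cap, 0)] (.posNeg 0) rfl rfl)
    _ = val x y [(cup, 0), (pos, 0), (cup, 2), (pos, 1), (cap, 2), (cap, 0)] := (val_r1 [(cup, 0), (pos, 0)] [(cap, 0)] 1 rfl rfl).symm
    _ = val x y [(cup, 0), (pos, 0), (cup, 2), (pos, 1), (cap, 0), (cap, 0)] := (val_step [(cup, 0), (pos, 0), (cup, 2), (pos, 1)] [] (.exchange cap cap 0 0 (by norm_num)) rfl rfl).symm
    _ = val x y [(cup, 0), (pos, 0), (cup, 2), (neg, 0), (cap, 1), (cap, 0)] := (val_step [(cup, 0), (pos, 0), (cup, 2)] [(cap, 0)] (.slideCapPos 0) rfl rfl)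
    _ = val x y [(cup, 0), (pos, 0), (neg, 0), (cup, 2), (cap, 1), (cap, 0)] := (val_step [(cup, 0), (pos, 0)] [(cap, 1), (cap, 0)] (.exchange neg cup 0 0 (by norm_num)) rfl rfl).symm
    _ = val x y [(cup, 0), (pos, 0), (neg, 0), (cap, 0)] := (val_step [(cup, 0), (pos, 0), (neg, 0)] [(cap, 0)] (.zigzagLeft 1) rfl rfl)
    _ = val x y [(cup, 0), (cap, 0)] := (val_step [(cup, 0)] [(cap, 0)] (.posNeg 0) rfl rfl)

theorem eq_L3 :
    val x y [(cup, 0), (pos, 0), (pos, 0), (pos, 0), (cap, 0)] =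
      val x y [(cup, 0), (cap, 0)] :=
  calc
    val x y [(cup, 0), (pos, 0), (pos, 0), (pos, 0), (cap, 0)]
      = val x y [(cup, 0), (pos, 0), (pos, 0), (pos, 0), (cup, 2), (pos, 1), (cap, 2), (cap, 0)] := (val_r1 [(cup, 0), (pos, 0), (pos, 0), (pos, 0)] [(cap, 0)] 1 rfl rfl).symm
    _ = val x y [(cup, 0), (pos, 0), (pos, 0), (pos, 0), (cup, 2), (pos, 1), (cap, 0), (cap, 0)] := (val_step [(cup, 0), (pos, 0), (pos, 0), (pos, 0), (cup, 2), (pos, 1)] [] (.exchange cap cap 0 0 (by norm_num)) rfl rfl).symm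
    _ = val x y [(cup, 0), (pos, 0), (pos, 0), (pos, 0), (cup, 2), (neg, 0), (cap, 1), (cap, 0)] := (val_step [(cup, 0), (pos, 0), (pos, 0), (pos, 0), (cup, 2)] [(cap, 0)] (.slideCapPos 0) rfl rfl)
    _ = val x y [(cup, 0), (pos, 0), (pos, 0), (pos, 0), (neg, 0), (cup, 2), (cap, 1), (cap, 0)] := (val_step [(cup, 0), (pos, 0), (pos, 0), (pos, 0)] [(cap, 1), (cap, 0)] (.exchange neg cup 0 0 (by norm_num)) rfl rfl).symm
    _ = val x y [(cup, 0), (pos, 0), (pos, 0), (pos, 0), (neg, 0), (cap, 0)] := (val_step [(cup, 0), (pos, 0), (pos, 0), (pos, 0), (neg, 0)] [(cap, 0)] (.zigzagLeft 1) rfl rfl)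
    _ = val x y [(cup, 0), (pos, 0), (pos, 0), (cap, 0)] := (val_step [(cup, 0), (pos, 0), (pos, 0)] [(cap, 0)] (.posNeg 0) rfl rfl)
    _ = val x y [(cup, 0), (pos, 0), (pos, 0), (cup, 2), (pos, 1), (cap, 2), (cap, 0)] := (val_r1 [(cup, 0), (pos, 0), (pos, 0)] [(cap, 0)] 1 rfl rfl).symm
    _ = val x y [(cup, 0), (pos, 0), (pos, 0), (cup, 2), (pos, 1), (cap, 0), (cap, 0)] := (val_step [(cup, 0), (pos, 0), (pos, 0), (cup, 2), (pos, 1)] [] (.exchange cap cap 0 0 (by norm_num)) rfl rfl).symm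
    _ = val x y [(cup, 0), (pos, 0), (pos, 0), (cup, 2), (neg, 0), (cap, 1), (cap, 0)] := (val_step [(cup, 0), (pos, 0), (pos, 0), (cup, 2)] [(cap, 0)] (.slideCapPos 0) rfl rfl)
    _ = val x y [(cup, 0), (pos, 0), (pos, 0), (neg, 0), (cup, 2), (cap, 1), (cap, 0)] := (val_step [(cup, 0), (pos, 0), (pos, 0)] [(cap, 1), (cap, 0)] (.exchange neg cup 0 0 (by norm_num)) rfl rfl).symm
    _ = val x y [(cup, 0), (pos, 0), (pos, 0), (neg, 0), (cap, 0)] := (val_step [(cup, 0), (pos, 0), (pos, 0), (neg, 0)] [(cap, 0)] (.zigzagLeft 1) rfl rfl)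
    _ = val x y [(cup, 0), (pos, 0), (cap, 0)] := (val_step [(cup, 0), (pos, 0)] [(cap, 0)] (.posNeg 0) rfl rfl)
    _ = val x y [(cup, 0), (pos, 0), (cup, 2), (pos, 1), (cap, 2), (cap, 0)] := (val_r1 [(cup, 0), (pos, 0)] [(cap, 0)] 1 rfl rfl).symm
    _ = val x y [(cup, 0), (pos, 0), (cup, 2), (pos, 1), (cap, 0), (cap, 0)] := (val_step [(cup, 0), (pos, 0), (cup, 2), (pos, 1)] [] (.exchange cap cap 0 0 (by norm_num)) rfl rfl).symm
    _ = val x y [(cup, 0), (pos, 0), (cup, 2), (neg, 0), (cap, 1), (cap, 0)] := (val_step [(cup, 0), (pos, 0), (cup, 2)] [(cap, 0)] (.slideCapPos 0) rfl rfl)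
    _ = val x y [(cup, 0), (pos, 0), (neg, 0), (cup, 2), (cap, 1), (cap, 0)] := (val_step [(cup, 0), (pos, 0)] [(cap, 1), (cap, 0)] (.exchange neg cup 0 0 (by norm_num)) rfl rfl).symm
    _ = val x y [(cup, 0), (pos, 0), (neg, 0), (cap, 0)] := (val_step [(cup, 0), (pos, 0), (neg, 0)] [(cap, 0)] (.zigzagLeft 1) rfl rfl)
    _ = val x y [(cup, 0), (cap, 0)] := (val_step [(cup, 0)] [(cap, 0)] (.posNeg 0) rfl rfl)

theorem eq_K1_0 :
    val x y [(cup, 0), (cup, 1), (cup, 1), (cup, 0), (pos, 1), (neg, 1), (cap, 2), (pos, 0), (neg, 2), (cap, 1), (neg, 0), (cap, 1), (cap, 0)] =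
      val x y [(cup, 0), (cup, 1), (cup, 1), (cup, 0), (cap, 2), (pos, 0), (neg, 2), (cap, 1), (neg, 0), (cap, 1), (cap, 0)] :=
  calc
    val x y [(cup, 0), (cup, 1), (cup, 1), (cup, 0), (pos, 1), (neg, 1), (cap, 2), (pos, 0), (neg, 2), (cap, 1), (neg, 0), (cap, 1), (cap, 0)]
      = val x y [(cup, 0), (cup, 1), (cup, 1), (cup, 0), (cap, 2), (pos, 0), (neg, 2), (cap, 1), (neg, 0), (cap, 1), (cap, 0)] := (val_step [(cup, 0), (cup, 1), (cup, 1), (cup, 0)] [(cap, 2), (pos, 0), (neg, 2), (cap, 1), (neg, 0), (cap, 1), (cap, 0)] (.posNeg 1) rfl rfl)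

theorem eq_K1_1 :
    val x y [(cup, 0), (cup, 1), (cup, 1), (cup, 0), (pos, 1), (pos, 1), (neg, 1), (cap, 2), (pos, 0), (neg, 2), (cap, 1), (neg, 0), (cap, 1), (cap, 0)] =
      val x y [(cup, 0), (cup, 1), (cup, 1), (cup, 0), (pos, 1), (cap, 2), (pos, 0), (neg, 2), (cap, 1), (neg, 0), (cap, 1), (cap, 0)] :=
  calc
    val x y [(cup, 0), (cup, 1), (cup, 1), (cup, 0), (pos, 1), (pos, 1), (neg, 1), (cap, 2), (pos, 0), (neg, 2), (cap, 1), (neg, 0), (cap, 1), (cap, 0)]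
      = val x y [(cup, 0), (cup, 1), (cup, 1), (cup, 0), (pos, 1), (cap, 2), (pos, 0), (neg, 2), (cap, 1), (neg, 0), (cap, 1), (cap, 0)] := (val_step [(cup, 0), (cup, 1), (cup, 1), (cup, 0), (pos, 1)] [(cap, 2), (pos, 0), (neg, 2), (cap, 1), (neg, 0), (cap, 1), (cap, 0)] (.posNeg 1) rfl rfl)

theorem eq_K1_2 :
    val x y [(cup, 0), (cup, 1), (cup, 1), (cup, 0), (pos, 1), (pos, 1), (pos, 1), (neg, 1), (cap, 2), (pos, 0), (neg, 2), (cap, 1), (neg, 0), (cap, 1), (cap, 0)] =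
      val x y [(cup, 0), (cup, 1), (cup, 1), (cup, 0), (pos, 1), (pos, 1), (cap, 2), (pos, 0), (neg, 2), (cap, 1), (neg, 0), (cap, 1), (cap, 0)] :=
  calc
    val x y [(cup, 0), (cup, 1), (cup, 1), (cup, 0), (pos, 1), (pos, 1), (pos, 1), (neg, 1), (cap, 2), (pos, 0), (neg, 2), (cap, 1), (neg, 0), (cap, 1), (cap, 0)]
      = val x y [(cup, 0), (cup, 1), (cup, 1), (cup, 0), (pos, 1), (pos, 1), (cap, 2), (pos, 0), (neg, 2), (cap, 1), (neg, 0), (cap, 1), (cap, 0)] := (val_step [(cup, 0), (cup, 1), (cup, 1), (cup, 0), (pos, 1), (pos, 1)] [(cap, 2), (pos, 0), (neg, 2), (cap, 1), (neg, 0), (cap, 1), (cap, 0)] (.posNeg 1) rfl rfl)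

theorem eq_K1_U :
    val x y [(cup, 0), (cup, 1), (cup, 1), (cup, 0), (cap, 1), (cup, 1), (neg, 1), (cap, 2), (pos, 0), (neg, 2), (cap, 1), (neg, 0), (cap, 1), (cap, 0)] =
      val x y [(cup, 0), (cup, 1), (cup, 1), (cup, 0), (cap, 1), (cup, 1), (cap, 2), (pos, 0), (neg, 2), (cap, 1), (neg, 0), (cap, 1), (cap, 0)] :=
  calc
    val x y [(cup, 0), (cup, 1), (cup, 1), (cup, 0), (cap, 1), (cup, 1), (neg, 1), (cap, 2), (pos, 0), (neg, 2), (cap, 1), (neg, 0), (cap, 1), (cap, 0)]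
      = val x y [(cup, 0), (cup, 1), (cup, 1), (cup, 0), (cap, 1), (cup, 1), (neg, 1), (cup, 1), (cap, 2), (cap, 2), (pos, 0), (neg, 2), (cap, 1), (neg, 0), (cap, 1), (cap, 0)] := (val_step [(cup, 0), (cup, 1), (cup, 1), (cup, 0), (cap, 1), (cup, 1), (neg, 1)] [(cap, 2), (pos, 0), (neg, 2), (cap, 1), (neg, 0), (cap, 1), (cap, 0)] (.zigzagRight 1) rfl rfl).symm
    _ = val x y [(cup, 0), (cup, 1), (cup, 1), (cup, 0), (cap, 1), (cup, 1), (cup, 1), (neg, 3), (cap, 2), (cap, 2), (pos, 0), (neg, 2), (cap, 1), (neg, 0), (cap, 1), (cap, 0)] := (val_step [(cup, 0), (cup, 1), (cup, 1), (cup, 0), (cap, 1), (cup, 1)] [(cap, 2), (cap, 2), (pos, 0), (neg, 2), (cap, 1), (neg, 0), (cap, 1), (cap, 0)] (.exchange cup neg 1 1 (by norm_num)) rfl rfl).symm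
    _ = val x y [(cup, 0), (cup, 1), (cup, 1), (cup, 0), (cap, 1), (cup, 1), (cup, 3), (neg, 3), (cap, 2), (cap, 2), (pos, 0), (neg, 2), (cap, 1), (neg, 0), (cap, 1), (cap, 0)] := (val_step [(cup, 0), (cup, 1), (cup, 1), (cup, 0), (cap, 1)] [(neg, 3), (cap, 2), (cap, 2), (pos, 0), (neg, 2), (cap, 1), (neg, 0), (cap, 1), (cap, 0)] (.exchange cup cup 1 1 (by norm_num)) rfl rfl).symm
    _ = val x y [(cup, 0), (cup, 1), (cup, 1), (cup, 0), (cap, 1), (cup, 1), (cup, 3), (pos, 2), (cap, 3), (cap, 2), (pos, 0), (neg, 2), (cap, 1), (neg, 0), (cap, 1), (cap, 0)] := (val_step [(cup, 0), (cup, 1), (cup, 1), (cup, 0), (cap, 1), (cup, 1), (cup, 3)] [(cap, 2), (pos, 0), (neg, 2), (cap, 1), (neg, 0), (cap, 1), (cap, 0)] (.slideCapNeg 2) rfl rfl)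
    _ = val x y [(cup, 0), (cup, 1), (cup, 1), (cup, 0), (cap, 1), (cup, 1), (cap, 2), (pos, 0), (neg, 2), (cap, 1), (neg, 0), (cap, 1), (cap, 0)] := (val_r1 [(cup, 0), (cup, 1), (cup, 1), (cup, 0), (cap, 1), (cup, 1)] [(cap, 2), (pos, 0), (neg, 2), (cap, 1), (neg, 0), (cap, 1), (cap, 0)] 2 rfl rfl)

theorem eq_K2_0 :
    val x y [(cup, 0), (cup, 1), (cup, 1), (pos, 0), (neg, 0), (neg, 2), (cap, 1), (neg, 0), (cap, 1), (cap, 0)] =
      val x y [(cup, 0), (cup, 1), (cup, 1), (neg, 2), (cap, 1), (neg, 0), (cap, 1), (cap, 0)] :=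
  calc
    val x y [(cup, 0), (cup, 1), (cup, 1), (pos, 0), (neg, 0), (neg, 2), (cap, 1), (neg, 0), (cap, 1), (cap, 0)]
      = val x y [(cup, 0), (cup, 1), (cup, 1), (neg, 2), (cap, 1), (neg, 0), (cap, 1), (cap, 0)] := (val_step [(cup, 0), (cup, 1), (cup, 1)] [(neg, 2), (cap, 1), (neg, 0), (cap, 1), (cap, 0)] (.posNeg 0) rfl rfl)

theorem eq_K2_1 :
    val x y [(cup, 0), (cup, 1), (cup, 1), (pos, 0), (pos, 0), (neg, 0), (neg, 2), (cap, 1), (neg, 0), (cap, 1), (cap, 0)] =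
      val x y [(cup, 0), (cup, 1), (cup, 1), (pos, 0), (neg, 2), (cap, 1), (neg, 0), (cap, 1), (cap, 0)] :=
  calc
    val x y [(cup, 0), (cup, 1), (cup, 1), (pos, 0), (pos, 0), (neg, 0), (neg, 2), (cap, 1), (neg, 0), (cap, 1), (cap, 0)]
      = val x y [(cup, 0), (cup, 1), (cup, 1), (pos, 0), (neg, 2), (cap, 1), (neg, 0), (cap, 1), (cap, 0)] := (val_step [(cup, 0), (cup, 1), (cup, 1), (pos, 0)] [(neg, 2), (cap, 1), (neg, 0), (cap, 1), (cap, 0)] (.posNeg 0) rfl rfl)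

theorem eq_K2_2 :
    val x y [(cup, 0), (cup, 1), (cup, 1), (pos, 0), (pos, 0), (pos, 0), (neg, 0), (neg, 2), (cap, 1), (neg, 0), (cap, 1), (cap, 0)] =
      val x y [(cup, 0), (cup, 1), (cup, 1), (pos, 0), (pos, 0), (neg, 2), (cap, 1), (neg, 0), (cap, 1), (cap, 0)] :=
  calc
    val x y [(cup, 0), (cup, 1), (cup, 1), (pos, 0), (pos, 0), (pos, 0), (neg, 0), (neg, 2), (cap, 1), (neg, 0), (cap, 1), (cap, 0)]
      = val x y [(cup, 0), (cup, 1), (cup, 1), (pos, 0), (pos, 0), (neg, 2), (cap, 1), (neg, 0), (cap, 1), (cap, 0)] := (val_step [(cup, 0), (cup, 1), (cup, 1), (pos, 0), (pos, 0)] [(neg, 2), (cap, 1), (neg, 0), (cap, 1), (cap, 0)] (.posNeg 0) rfl rfl)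

theorem eq_K2_U :
    val x y [(cup, 0), (cup, 1), (cup, 1), (cap, 0), (cup, 0), (neg, 0), (neg, 2), (cap, 1), (neg, 0), (cap, 1), (cap, 0)] =
      val x y [(cup, 0), (cup, 1), (cup, 1), (cap, 0), (cup, 0), (neg, 2), (cap, 1), (neg, 0), (cap, 1), (cap, 0)] :=
  calc
    val x y [(cup, 0), (cup, 1), (cup, 1), (cap, 0), (cup, 0), (neg, 0), (neg, 2), (cap, 1), (neg, 0), (cap, 1), (cap, 0)]
      = val x y [(cup, 0), (cup, 1), (cup, 1), (cap, 0), (cup, 0), (neg, 0), (cup, 0), (cap, 1), (neg, 2), (cap, 1), (neg, 0), (cap, 1), (cap, 0)] := (val_step [(cup, 0), (cup, 1), (cup, 1), (cap, 0), (cup, 0), (neg, 0)] [(neg, 2), (cap, 1), (neg, 0), (cap, 1), (cap, 0)] (.zigzagRight 0) rfl rfl).symm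
    _ = val x y [(cup, 0), (cup, 1), (cup, 1), (cap, 0), (cup, 0), (cup, 0), (neg, 2), (cap, 1), (neg, 2), (cap, 1), (neg, 0), (cap, 1), (cap, 0)] := (val_step [(cup, 0), (cup, 1), (cup, 1), (cap, 0), (cup, 0)] [(cap, 1), (neg, 2), (cap, 1), (neg, 0), (cap, 1), (cap, 0)] (.exchange cup neg 0 0 (by norm_num)) rfl rfl).symm
    _ = val x y [(cup, 0), (cup, 1), (cup, 1), (cap, 0), (cup, 0), (cup, 2), (neg, 2), (cap, 1), (neg, 2), (cap, 1), (neg, 0), (cap, 1), (cap, 0)] := (val_step [(cup, 0), (cup, 1), (cup, 1), (cap, 0)] [(neg, 2), (cap, 1), (neg, 2), (cap, 1), (neg, 0), (cap, 1), (cap, 0)] (.exchange cup cup 0 0 (by norm_num)) rfl rfl).symm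
    _ = val x y [(cup, 0), (cup, 1), (cup, 1), (cap, 0), (cup, 0), (cup, 2), (pos, 1), (cap, 2), (neg, 2), (cap, 1), (neg, 0), (cap, 1), (cap, 0)] := (val_step [(cup, 0), (cup, 1), (cup, 1), (cap, 0), (cup, 0), (cup, 2)] [(neg, 2), (cap, 1), (neg, 0), (cap, 1), (cap, 0)] (.slideCapNeg 1) rfl rfl)
    _ = val x y [(cup, 0), (cup, 1), (cup, 1), (cap, 0), (cup, 0), (neg, 2), (cap, 1), (neg, 0), (cap, 1), (cap, 0)] := (val_r1 [(cup, 0), (cup, 1), (cup, 1), (cap, 0), (cup, 0)] [(neg, 2), (cap, 1), (neg, 0), (cap, 1), (cap, 0)] 1 rfl rfl)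

theorem eq_K3_0 :
    val x y [(cup, 0), (cup, 1), (cup, 0), (pos, 1), (neg, 1), (cap, 2), (neg, 0), (cap, 1), (cap, 0)] =
      val x y [(cup, 0), (cup, 1), (cup, 0), (cap, 2), (neg, 0), (cap, 1), (cap, 0)] :=
  calc
    val x y [(cup, 0), (cup, 1), (cup, 0), (pos, 1), (neg, 1), (cap, 2), (neg, 0), (cap, 1), (cap, 0)]
      = val x y [(cup, 0), (cup, 1), (cup, 0), (cap, 2), (neg, 0), (cap, 1), (cap, 0)] := (val_step [(cup, 0), (cup, 1), (cup, 0)] [(cap, 2), (neg, 0), (cap, 1), (cap, 0)] (.posNeg 1) rfl rfl)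

theorem eq_K3_1 :
    val x y [(cup, 0), (cup, 1), (cup, 0), (pos, 1), (pos, 1), (neg, 1), (cap, 2), (neg, 0), (cap, 1), (cap, 0)] =
      val x y [(cup, 0), (cup, 1), (cup, 0), (pos, 1), (cap, 2), (neg, 0), (cap, 1), (cap, 0)] :=
  calc
    val x y [(cup, 0), (cup, 1), (cup, 0), (pos, 1), (pos, 1), (neg, 1), (cap, 2), (neg, 0), (cap, 1), (cap, 0)]
      = val x y [(cup, 0), (cup, 1), (cup, 0), (pos, 1), (cap, 2), (neg, 0), (cap, 1), (cap, 0)] := (val_step [(cup, 0), (cup, 1), (cup, 0), (pos, 1)] [(cap, 2), (neg, 0), (cap, 1), (cap, 0)] (.posNeg 1) rfl rfl)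

theorem eq_K3_2 :
    val x y [(cup, 0), (cup, 1), (cup, 0), (pos, 1), (pos, 1), (pos, 1), (neg, 1), (cap, 2), (neg, 0), (cap, 1), (cap, 0)] =
      val x y [(cup, 0), (cup, 1), (cup, 0), (pos, 1), (pos, 1), (cap, 2), (neg, 0), (cap, 1), (cap, 0)] :=
  calc
    val x y [(cup, 0), (cup, 1), (cup, 0), (pos, 1), (pos, 1), (pos, 1), (neg, 1), (cap, 2), (neg, 0), (cap, 1), (cap, 0)]
      = val x y [(cup, 0), (cup, 1), (cup, 0), (pos, 1), (pos, 1), (cap, 2), (neg, 0), (cap, 1), (cap, 0)] := (val_step [(cup, 0), (cup, 1), (cup, 0), (pos, 1), (pos, 1)] [(cap, 2), (neg, 0), (cap, 1), (cap, 0)] (.posNeg 1) rfl rfl)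

theorem eq_K3_U :
    val x y [(cup, 0), (cup, 1), (cup, 0), (cap, 1), (cup, 1), (neg, 1), (cap, 2), (neg, 0), (cap, 1), (cap, 0)] =
      val x y [(cup, 0), (cup, 1), (cup, 0), (cap, 1), (cup, 1), (cap, 2), (neg, 0), (cap, 1), (cap, 0)] :=
  calc
    val x y [(cup, 0), (cup, 1), (cup, 0), (cap, 1), (cup, 1), (neg, 1), (cap, 2), (neg, 0), (cap, 1), (cap, 0)]
      = val x y [(cup, 0), (cup, 1), (cup, 0), (cap, 1), (cup, 1), (neg, 1), (cup, 1), (cap, 2), (cap, 2), (neg, 0), (cap, 1), (cap, 0)] := (val_step [(cup, 0), (cup, 1), (cup, 0), (cap, 1), (cup, 1), (neg, 1)] [(cap, 2), (neg, 0), (cap, 1), (cap, 0)] (.zigzagRight 1) rfl rfl).symm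
    _ = val x y [(cup, 0), (cup, 1), (cup, 0), (cap, 1), (cup, 1), (cup, 1), (neg, 3), (cap, 2), (cap, 2), (neg, 0), (cap, 1), (cap, 0)] := (val_step [(cup, 0), (cup, 1), (cup, 0), (cap, 1), (cup, 1)] [(cap, 2), (cap, 2), (neg, 0), (cap, 1), (cap, 0)] (.exchange cup neg 1 1 (by norm_num)) rfl rfl).symm
    _ = val x y [(cup, 0), (cup, 1), (cup, 0), (cap, 1), (cup, 1), (cup, 3), (neg, 3), (cap, 2), (cap, 2), (neg, 0), (cap, 1), (cap, 0)] := (val_step [(cup, 0), (cup, 1), (cup, 0), (cap, 1)] [(neg, 3), (cap, 2), (cap, 2), (neg, 0), (cap, 1), (cap, 0)] (.exchange cup cup 1 1 (by norm_num)) rfl rfl).symm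
    _ = val x y [(cup, 0), (cup, 1), (cup, 0), (cap, 1), (cup, 1), (cup, 3), (pos, 2), (cap, 3), (cap, 2), (neg, 0), (cap, 1), (cap, 0)] := (val_step [(cup, 0), (cup, 1), (cup, 0), (cap, 1), (cup, 1), (cup, 3)] [(cap, 2), (neg, 0), (cap, 1), (cap, 0)] (.slideCapNeg 2) rfl rfl)
    _ = val x y [(cup, 0), (cup, 1), (cup, 0), (cap, 1), (cup, 1), (cap, 2), (neg, 0), (cap, 1), (cap, 0)] := (val_r1 [(cup, 0), (cup, 1), (cup, 0), (cap, 1), (cup, 1)] [(cap, 2), (neg, 0), (cap, 1), (cap, 0)] 2 rfl rfl)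

theorem eq_K4_0 :
    val x y [(cup, 0), (cup, 1), (pos, 0), (neg, 0), (neg, 0), (cap, 1), (cap, 0)] =
      val x y [(cup, 0), (cup, 1), (neg, 0), (cap, 1), (cap, 0)] :=
  calc
    val x y [(cup, 0), (cup, 1), (pos, 0), (neg, 0), (neg, 0), (cap, 1), (cap, 0)]
      = val x y [(cup, 0), (cup, 1), (neg, 0), (cap, 1), (cap, 0)] := (val_step [(cup, 0), (cup, 1)] [(neg, 0), (cap, 1), (cap, 0)] (.posNeg 0) rfl rfl)

theorem eq_K4_1 :
    val x y [(cup, 0), (cup, 1), (pos, 0), (pos, 0), (neg, 0), (neg, 0), (cap, 1), (cap, 0)] =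
      val x y [(cup, 0), (cup, 1), (pos, 0), (neg, 0), (cap, 1), (cap, 0)] :=
  calc
    val x y [(cup, 0), (cup, 1), (pos, 0), (pos, 0), (neg, 0), (neg, 0), (cap, 1), (cap, 0)]
      = val x y [(cup, 0), (cup, 1), (pos, 0), (neg, 0), (cap, 1), (cap, 0)] := (val_step [(cup, 0), (cup, 1), (pos, 0)] [(neg, 0), (cap, 1), (cap, 0)] (.posNeg 0) rfl rfl)

theorem eq_K4_2 :
    val x y [(cup, 0), (cup, 1), (pos, 0), (pos, 0), (pos, 0), (neg, 0), (neg, 0), (cap, 1), (cap, 0)] =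
      val x y [(cup, 0), (cup, 1), (pos, 0), (pos, 0), (neg, 0), (cap, 1), (cap, 0)] :=
  calc
    val x y [(cup, 0), (cup, 1), (pos, 0), (pos, 0), (pos, 0), (neg, 0), (neg, 0), (cap, 1), (cap, 0)]
      = val x y [(cup, 0), (cup, 1), (pos, 0), (pos, 0), (neg, 0), (cap, 1), (cap, 0)] := (val_step [(cup, 0), (cup, 1), (pos, 0), (pos, 0)] [(neg, 0), (cap, 1), (cap, 0)] (.posNeg 0) rfl rfl)

theorem eq_K4_U :
    val x y [(cup, 0), (cup, 1), (cap, 0), (cup, 0), (neg, 0), (neg, 0), (cap, 1), (cap, 0)] =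
      val x y [(cup, 0), (cup, 1), (cap, 0), (cup, 0), (neg, 0), (cap, 1), (cap, 0)] :=
  calc
    val x y [(cup, 0), (cup, 1), (cap, 0), (cup, 0), (neg, 0), (neg, 0), (cap, 1), (cap, 0)]
      = val x y [(cup, 0), (cup, 1), (cap, 0), (cup, 0), (neg, 0), (cup, 0), (cap, 1), (neg, 0), (cap, 1), (cap, 0)] := (val_step [(cup, 0), (cup, 1), (cap, 0), (cup, 0), (neg, 0)] [(neg, 0), (cap, 1), (cap, 0)] (.zigzagRight 0) rfl rfl).symm
    _ = val x y [(cup, 0), (cup, 1), (cap, 0), (cup, 0), (cup, 0), (neg, 2), (cap, 1), (neg, 0), (cap, 1), (cap, 0)] := (val_step [(cup, 0), (cup, 1), (cap, 0), (cup, 0)] [(cap, 1), (neg, 0), (cap, 1), (cap, 0)] (.exchange cup neg 0 0 (by norm_num)) rfl rfl).symm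
    _ = val x y [(cup, 0), (cup, 1), (cap, 0), (cup, 0), (cup, 2), (neg, 2), (cap, 1), (neg, 0), (cap, 1), (cap, 0)] := (val_step [(cup, 0), (cup, 1), (cap, 0)] [(neg, 2), (cap, 1), (neg, 0), (cap, 1), (cap, 0)] (.exchange cup cup 0 0 (by norm_num)) rfl rfl).symm
    _ = val x y [(cup, 0), (cup, 1), (cap, 0), (cup, 0), (cup, 2), (pos, 1), (cap, 2), (neg, 0), (cap, 1), (cap, 0)] := (val_step [(cup, 0), (cup, 1), (cap, 0), (cup, 0), (cup, 2)] [(neg, 0), (cap, 1), (cap, 0)] (.slideCapNeg 1) rfl rfl)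
    _ = val x y [(cup, 0), (cup, 1), (cap, 0), (cup, 0), (neg, 0), (cap, 1), (cap, 0)] := (val_r1 [(cup, 0), (cup, 1), (cap, 0), (cup, 0)] [(neg, 0), (cap, 1), (cap, 0)] 1 rfl rfl)

/-- The polynomial `(y + 2x + 2)(y - 2x + 2)(y - x - 1)`. -/
def factor (x y : R) : R := (y + 2 * x + 2) * (y - 2 * x + 2) * (y - x - 1)

theorem rel_k0 :
    val x y [(cup, 0), (cap, 0)] + x • val x y [(cup, 0), (cap, 0)]
      + x • val x y [(cup, 0), (cap, 0)] + val x y [(cup, 0), (cap, 0)]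
      + y • val x y [(cup, 0), (cap, 0), (cup, 0), (cap, 0)] = 0 := by
  have h := val_skein (x := x) (y := y) [(cup, 0)] [(cap, 0)] 0 rfl rfl rfl rfl rfl
  simp only [List.cons_append, List.nil_append] at h
  rwa [eq_L1, eq_L2, eq_L3] at h

theorem rel_k1 :
    val x y [(cup, 0), (cup, 1), (cup, 1), (pos, 0), (pos, 0), (neg, 2), (cap, 1), (neg, 0), (cap, 1), (cap, 0)]
      + x • val x y [(cup, 0), (cup, 1), (neg, 0), (neg, 0), (cap, 1), (cap, 0)]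
      + x • val x y [(cup, 0), (cap, 0)]
      + val x y [(cup, 0), (cap, 0), (cup, 0), (cap, 0)]
      + y • val x y [(cup, 0), (cap, 0)] = 0 := by
  have h := val_skein (x := x) (y := y) [(cup, 0), (cup, 1), (cup, 1), (cup, 0)]
    [(neg, 1), (cap, 2), (pos, 0), (neg, 2), (cap, 1), (neg, 0), (cap, 1), (cap, 0)] 1 rfl rfl rfl rfl rfl
  simp only [List.cons_append, List.nil_append] at h
  rwa [eq_K1_0, eq_K1_1, eq_K1_2, eq_K1_U, eq_F0, eq_F1, eq_F2, eq_F3, eq_F4] at h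

theorem rel_k2 :
    val x y [(cup, 0), (cup, 1), (cup, 0), (pos, 1), (pos, 1), (cap, 2), (neg, 0), (cap, 1), (cap, 0)]
      + x • val x y [(cup, 0), (cap, 0)]
      + x • val x y [(cup, 0), (cap, 0)]
      + val x y [(cup, 0), (cup, 1), (cup, 1), (pos, 0), (pos, 0), (neg, 2), (cap, 1), (neg, 0), (cap, 1), (cap, 0)]
      + y • val x y [(cup, 0), (cup, 1), (neg, 0), (neg, 0), (cap, 1), (cap, 0)] = 0 := by
  have h := val_skein (x := x) (y := y) [(cup, 0), (cup, 1), (cup, 1)]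
    [(neg, 0), (neg, 2), (cap, 1), (neg, 0), (cap, 1), (cap, 0)] 0 rfl rfl rfl rfl rfl
  simp only [List.cons_append, List.nil_append] at h
  rwa [eq_K2_0, eq_K2_1, eq_K2_2, eq_K2_U, eq_G1, eq_G2, eq_G3, eq_G4] at h

theorem rel_k3 :
    val x y [(cup, 0), (cap, 0), (cup, 0), (cap, 0)]
      + x • val x y [(cup, 0), (cap, 0)]
      + x • val x y [(cup, 0), (cup, 1), (neg, 0), (neg, 0), (cap, 1), (cap, 0)]
      + val x y [(cup, 0), (cup, 1), (cup, 0), (pos, 1), (pos, 1), (cap, 2), (neg, 0), (cap, 1), (cap, 0)]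
      + y • val x y [(cup, 0), (cap, 0)] = 0 := by
  have h := val_skein (x := x) (y := y) [(cup, 0), (cup, 1), (cup, 0)]
    [(neg, 1), (cap, 2), (neg, 0), (cap, 1), (cap, 0)] 1 rfl rfl rfl rfl rfl
  simp only [List.cons_append, List.nil_append] at h
  rwa [eq_K3_0, eq_K3_1, eq_K3_2, eq_K3_U, eq_H1, eq_H2, eq_H3, eq_H4] at h

theorem rel_k4 :
    val x y [(cup, 0), (cup, 1), (neg, 0), (neg, 0), (cap, 1), (cap, 0)]
      + x • val x y [(cup, 0), (cap, 0)]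
      + x • val x y [(cup, 0), (cap, 0), (cup, 0), (cap, 0)]
      + val x y [(cup, 0), (cap, 0)]
      + y • val x y [(cup, 0), (cap, 0)] = 0 := by
  have h := val_skein (x := x) (y := y) [(cup, 0), (cup, 1)]
    [(neg, 0), (neg, 0), (cap, 1), (cap, 0)] 0 rfl rfl rfl rfl rfl
  simp only [List.cons_append, List.nil_append] at h
  rwa [eq_K4_0, eq_K4_1, eq_K4_2, eq_K4_U, eq_J1, eq_J2, eq_J3, eq_J4] at h

/-- The third relation: `(y + 2x + 2)(y - 2x + 2)(y - x - 1) T₁ = 0`. -/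
theorem third_relation : factor x y • val x y [(cup, 0), (cap, 0)] = 0 := by
  have h0 := rel_k0 (x := x) (y := y)
  have h1 := rel_k1 (x := x) (y := y)
  have h2 := rel_k2 (x := x) (y := y)
  have h3 := rel_k3 (x := x) (y := y)
  have h4 := rel_k4 (x := x) (y := y)
  generalize val x y [(cup, 0), (cap, 0)] = t1 at *
  generalize val x y [(cup, 0), (cap, 0), (cup, 0), (cap, 0)] = t2 at *
  generalize val x y [(cup, 0), (cup, 1), (neg, 0), (neg, 0), (cap, 1), (cap, 0)] = hf at *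
  generalize val x y [(cup, 0), (cup, 1), (cup, 1), (pos, 0), (pos, 0), (neg, 2), (cap, 1), (neg, 0),
    (cap, 1), (cap, 0)] = dn at *
  generalize val x y [(cup, 0), (cup, 1), (cup, 0), (pos, 1), (pos, 1), (cap, 2), (neg, 0), (cap, 1),
    (cap, 0)] = nn at *
  unfold factor
  linear_combination (norm := module) y • h1 + y • h3 - y • h2 - (y * (2 * x - y)) • h4
    + (x * (2 * x - y) - 2) • h0

end Computation

end Pool.Agent.H.MP_800496_gt
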