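import Mathlib

set_option autoImplicit false

/-!
# The `(4,∞)` skein module of `S³`: a third relation between trivial links

Framed unoriented links in `S³` are encoded, as usual, by their diagrams in Morse position, read from the
bottom to the top as a word in the four elementary pieces `cup`, `cap`, `pos`, `neg`, modulo the moves which
present the category of framed unoriented tangles (Kauffman, Yetter, Turaev): exchange of distant pieces,
straightening of a strand, the second and third Reidemeister moves, sliding a strand past a cup or a cap, and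
the framed version of the first Reidemeister move.  The framing is the blackboard framing.
-/

namespace Pool.Agent.H.MP_800496_gt

open Polynomial

/-- The elementary pieces of a diagram: `cup` creates two strands, `cap` joins two strands, `pos` and `neg`
are the crossings of two neighbouring strands.  In `pos` the strand going from the bottom left to the top
right is the upper one (so `pos` is the right-handed half twist of two vertical strands), in `neg` it is the
lower one. -/
inductive Piece
  | cup
  | cap
  | pos
  | neg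

namespace Piece

/-- Number of strands of a piece at its bottom. -/
def inp : Piece → ℕ
  | cup => 0
  | cap => 2
  | pos => 2
  | neg => 2

/-- Number of strands of a piece at its top. -/
def out : Piece → ℕ
  | cup => 2
  | cap => 0
  | pos => 2
  | neg => 2

end Piece

open Piece

/-- A word `[(g₁, i₁), (g₂, i₂), …]` is read from the bottom to the top: the piece `g₁` is put on the strands
with exactly `i₁` strands to its left, then `g₂` is put on top of it with `i₂` strands to its left, etc. -/
abbrev Word := List (Piece × ℕ)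

/-- `run w n` is the number of strands at the top of `w` if there are `n` strands at its bottom, and `none`
if some piece of `w` does not fit. -/
def run : Word → ℕ → Option ℕ
  | [], n => some n
  | (g, i) :: w, n => if i + g.inp ≤ n then run w (n - g.inp + g.out) else none

/-- A link diagram is a word without strands at the bottom and at the top. -/
def LinkDiagram : Type := {w : Word // run w 0 = some 0}

/-- The local moves. -/
inductive Move : Word → Word → Prop
  /-- exchange of two distant pieces, `h` being to the right of `g` -/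
  | exchange (g h : Piece) (i k : ℕ) (hik : i ≤ k) :
      Move [(g, i), (h, k + g.out)] [(h, k + g.inp), (g, i)]
  /-- straightening of a strand -/
  | zigzagRight (i : ℕ) : Move [(cup, i), (cap, i + 1)] []
  /-- straightening of a strand -/
  | zigzagLeft (i : ℕ) : Move [(cup, i + 1), (cap, i)] []
  /-- second Reidemeister move -/
  | posNeg (i : ℕ) : Move [(pos, i), (neg, i)] []
  /-- second Reidemeister move -/
  | negPos (i : ℕ) : Move [(neg, i), (pos, i)] []
  /-- third Reidemeister move -/
  | triangle (i : ℕ) :
      Move [(pos, i), (pos, i + 1), (pos, i)] [(pos, i + 1), (pos, i), (pos, i + 1)]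
  /-- a strand slides past a cup -/
  | slideCupPos (i : ℕ) : Move [(cup, i), (pos, i + 1)] [(cup, i + 1), (neg, i)]
  /-- a strand slides past a cup -/
  | slideCupNeg (i : ℕ) : Move [(cup, i), (neg, i + 1)] [(cup, i + 1), (pos, i)]
  /-- a strand slides past a cap -/
  | slideCapPos (i : ℕ) : Move [(pos, i + 1), (cap, i)] [(neg, i), (cap, i + 1)]
  /-- a strand slides past a cap -/
  | slideCapNeg (i : ℕ) : Move [(neg, i + 1), (cap, i)] [(pos, i), (cap, i + 1)]
  /-- framed first Reidemeister move: the two curls of framing `+1` on a strand -/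
  | curl (i : ℕ) :
      Move [(cup, i + 1), (pos, i), (cap, i + 1)] [(cup, i), (pos, i + 1), (cap, i)]

/-- Two link diagrams differ by one local move. -/
def Step (D D' : LinkDiagram) : Prop :=
  ∃ u v l r : Word, Move l r ∧ D.1 = u ++ l ++ v ∧ D'.1 = u ++ r ++ v

/-- Isotopy classes of framed unoriented links in `S³` (`Quot` takes the equivalence relation generated by
`Step`); the empty word is the empty link. -/
def FramedLink : Type := Quot Step

/-- The isotopy class of a diagram. -/
def FramedLink.mk (D : LinkDiagram) : FramedLink := Quot.mk Step D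

section SkeinModule

variable {R : Type*} [CommRing R]

/-- The relators `b₀ L₀ + b₁ L₁ + b₂ L₂ + b₃ L₃ + b_∞ L_∞`.  The five diagrams are equal outside the place
where they have, on the strands number `i` and `i + 1`, zero, one, two, three right-handed half twists,
respectively a cap below a cup. -/
def skeinRelators (b₀ b₁ b₂ b₃ binf : R) : Set (FramedLink →₀ R) :=
  {z | ∃ (u v : Word) (i : ℕ) (L₀ L₁ L₂ L₃ Linf : LinkDiagram),
    L₀.1 = u ++ v ∧
    L₁.1 = u ++ [(pos, i)] ++ v ∧
    L₂.1 = u ++ [(pos, i), (pos, i)] ++ v ∧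
    L₃.1 = u ++ [(pos, i), (pos, i), (pos, i)] ++ v ∧
    Linf.1 = u ++ [(cap, i), (cup, i)] ++ v ∧
    z = Finsupp.single (FramedLink.mk L₀) b₀ + Finsupp.single (FramedLink.mk L₁) b₁ +
      Finsupp.single (FramedLink.mk L₂) b₂ + Finsupp.single (FramedLink.mk L₃) b₃ +
      Finsupp.single (FramedLink.mk Linf) binf}

/-- The relators `L⁽¹⁾ - a L`.  The diagram `L⁽¹⁾` has one more positive curl, on the strand number `i`. -/
def framingRelators (a : R) : Set (FramedLink →₀ R) :=
  {z | ∃ (u v : Word) (i : ℕ) (L L' : LinkDiagram),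
    L.1 = u ++ v ∧
    L'.1 = u ++ [(cup, i + 1), (pos, i), (cap, i + 1)] ++ v ∧
    z = Finsupp.single (FramedLink.mk L') 1 - Finsupp.single (FramedLink.mk L) a}

/-- The submodule `I_{(4,∞)}`. -/
noncomputable def relSubmodule (a b₀ b₁ b₂ b₃ binf : R) : Submodule R (FramedLink →₀ R) :=
  Submodule.span R (skeinRelators b₀ b₁ b₂ b₃ binf ∪ framingRelators a)

/-- The skein module `S_{4,∞}(S³; R)`. -/
abbrev SkeinModule (a b₀ b₁ b₂ b₃ binf : R) : Type _ :=
  (FramedLink →₀ R) ⧸ relSubmodule a b₀ b₁ b₂ b₃ binf

/-- The word of the trivial link with `n` components (`n` circles on top of each other). -/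
def trivialWord : ℕ → Word
  | 0 => []
  | n + 1 => (cup, 0) :: (cap, 0) :: trivialWord n

theorem run_trivialWord (n : ℕ) : run (trivialWord n) 0 = some 0 := by
  induction n with
  | zero => rfl
  | succ n ih => simpa [trivialWord, run, Piece.inp, Piece.out] using ih

/-- The trivial link `T_n` with `n` components. -/
def trivialLink (n : ℕ) : FramedLink := FramedLink.mk ⟨trivialWord n, run_trivialWord n⟩

/-- The `R`-linear map `R[t] → S_{4,∞}(S³; R)`, `t^n ↦ T_n`. -/
noncomputable def trivialLinks (a b₀ b₁ b₂ b₃ binf : R) :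
    R[X] →ₗ[R] SkeinModule a b₀ b₁ b₂ b₃ binf :=
  Polynomial.lsum fun n => LinearMap.toSpanSingleton R _
    ((relSubmodule a b₀ b₁ b₂ b₃ binf).mkQ (Finsupp.single (trivialLink n) 1))

/-- `p₁(t) = a⁻³ b₃ + a⁻² b₂ + a⁻¹ b₁ + b₀ + b_∞ t`. -/
noncomputable def p₁ (a : Rˣ) (b₀ b₁ b₂ b₃ binf : R) : R[X] :=
  C (↑a⁻¹ ^ 3 * b₃ + ↑a⁻¹ ^ 2 * b₂ + ↑a⁻¹ * b₁ + b₀) + C binf * X

/-- `p₂(t) = (b₀ b₁ - b₂ b₃) t + (a⁻¹ b₀² - a b₃²) + (a b₀ b₂ - a⁻¹ b₁ b₃) + b_∞ (a b₀ - a² b₃)`. -/
noncomputable def p₂ (a : Rˣ) (b₀ b₁ b₂ b₃ binf : R) : R[X] :=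
  C (b₀ * b₁ - b₂ * b₃) * X + C (↑a⁻¹ * b₀ ^ 2 - ↑a * b₃ ^ 2)
    + C (↑a * b₀ * b₂ - ↑a⁻¹ * b₁ * b₃) + C (binf * (↑a * b₀ - ↑a ^ 2 * b₃))

/-- The ideal of `R[t]` generated by `t p₁(t)` and `t p₂(t)`. -/
noncomputable def conjIdeal (a : Rˣ) (b₀ b₁ b₂ b₃ binf : R) : Ideal R[X] :=
  Ideal.span {X * p₁ a b₀ b₁ b₂ b₃ binf, X * p₂ a b₀ b₁ b₂ b₃ binf}

end SkeinModule

end Pool.Agent.H.MP_800496_gt
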